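import Pool.Agent.H891R2.Sym.Seg

/-! Symmetric involutions acting on the Segre manifold; topology of the Segre manifold. -/

open Set Matrix Kronecker

noncomputable section

namespace Pool.Agent.H891R2.Sym
set_option linter.unusedSectionVars false
set_option linter.unusedVariables false

section LI

variable {T : Type} [Fintype T] [DecidableEq T]

/-- a symmetric involutive matrix as a linear isometry -/
def symLI (K : Matrix T T ℝ) (hs : Kᵀ = K) (hi : K * K = 1) :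
    EuclideanSpace ℝ T ≃ₗᵢ[ℝ] EuclideanSpace ℝ T where
  toFun v := WithLp.toLp 2 (K.mulVec v.ofLp)
  invFun v := WithLp.toLp 2 (K.mulVec v.ofLp)
  map_add' u v := by
    ext t
    simp [Matrix.mulVec_add]
  map_smul' c v := by
    ext t
    simp [Matrix.mulVec_smul]
  left_inv v := by
    ext t
    simp [hi]
  right_inv v := by
    ext t
    simp [hi]
  norm_map' v := by
    have h1 : ‖(WithLp.toLp 2 (K.mulVec v.ofLp) : EuclideanSpace ℝ T)‖ ^ 2 = ‖v‖ ^ 2 := by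
      rw [EuclideanSpace.real_norm_sq_eq, EuclideanSpace.real_norm_sq_eq]
      have e1 : ∑ i, (WithLp.toLp 2 (K.mulVec v.ofLp) : EuclideanSpace ℝ T) i ^ 2 =
          K.mulVec v.ofLp ⬝ᵥ K.mulVec v.ofLp := by
        simp only [dotProduct, pow_two]
      have e2 : ∑ i, v i ^ 2 = v.ofLp ⬝ᵥ v.ofLp := by
        simp only [dotProduct, pow_two]
      rw [e1, e2, Matrix.dotProduct_mulVec, Matrix.vecMul_mulVec, hs, hi, Matrix.vecMul_one]
    exact (pow_left_inj₀ (norm_nonneg _) (norm_nonneg _) two_ne_zero).1 h1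

theorem symLI_apply (K : Matrix T T ℝ) (hs : Kᵀ = K) (hi : K * K = 1) (v : EuclideanSpace ℝ T) :
    symLI K hs hi v = WithLp.toLp 2 (K.mulVec v.ofLp) := rfl

theorem symLI_symm_apply (K : Matrix T T ℝ) (hs : Kᵀ = K) (hi : K * K = 1)
    (v : EuclideanSpace ℝ T) :
    (symLI K hs hi).symm v = WithLp.toLp 2 (K.mulVec v.ofLp) := rfl

end LI

variable {p q r : ℕ}

/-- symmetric involutive matrices -/
def SI {n : ℕ} (A : Matrix (Fin n) (Fin n) ℝ) : Prop := Aᵀ = A ∧ A * A = 1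

theorem SI.sq_mulVec {n : ℕ} {A : Matrix (Fin n) (Fin n) ℝ} (hA : SI A) (x : Fin n → ℝ) :
    sq (A.mulVec x) = sq x := by
  have e1 : ∀ y : Fin n → ℝ, sq y = y ⬝ᵥ y := by
    intro y; simp only [sq, dotProduct, pow_two]
  rw [e1, e1, Matrix.dotProduct_mulVec, Matrix.vecMul_mulVec, hA.1, hA.2, Matrix.vecMul_one]

theorem SI.mulVec_mulVec {n : ℕ} {A : Matrix (Fin n) (Fin n) ℝ} (hA : SI A) (x : Fin n → ℝ) :
    A.mulVec (A.mulVec x) = x := by
  rw [Matrix.mulVec_mulVec, hA.2, Matrix.one_mulVec]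

/-- triple Kronecker product -/
def KK (A : Matrix (Fin (p + 1)) (Fin (p + 1)) ℝ) (B : Matrix (Fin (q + 1)) (Fin (q + 1)) ℝ)
    (C : Matrix (Fin (r + 1)) (Fin (r + 1)) ℝ) :
    Matrix (Fin (p + 1) × Fin (q + 1) × Fin (r + 1)) (Fin (p + 1) × Fin (q + 1) × Fin (r + 1)) ℝ :=
  A ⊗ₖ (B ⊗ₖ C)

variable {A : Matrix (Fin (p + 1)) (Fin (p + 1)) ℝ} {B : Matrix (Fin (q + 1)) (Fin (q + 1)) ℝ}
    {C : Matrix (Fin (r + 1)) (Fin (r + 1)) ℝ}

theorem KK_transpose (hA : SI A) (hB : SI B) (hC : SI C) : (KK A B C)ᵀ = KK A B C := by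
  unfold KK
  rw [← Matrix.kroneckerMap_transpose, ← Matrix.kroneckerMap_transpose, hA.1, hB.1, hC.1]

theorem KK_sq (hA : SI A) (hB : SI B) (hC : SI C) : KK A B C * KK A B C = 1 := by
  unfold KK
  rw [← Matrix.mul_kronecker_mul, ← Matrix.mul_kronecker_mul, hA.2, hB.2, hC.2,
    Matrix.one_kronecker_one, Matrix.one_kronecker_one]

theorem KK_mulVec (x : Fin (p + 1) → ℝ) (y : Fin (q + 1) → ℝ) (z : Fin (r + 1) → ℝ) :
    (WithLp.toLp 2 ((KK A B C).mulVec (tens x y z).ofLp) : TF p q r) =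
      tens (A.mulVec x) (B.mulVec y) (C.mulVec z) := by
  ext t
  obtain ⟨i, j, k⟩ := t
  change ∑ s, (A ⊗ₖ (B ⊗ₖ C)) (i, j, k) s * (x s.1 * y s.2.1 * z s.2.2) =
    (∑ a, A i a * x a) * (∑ b, B j b * y b) * (∑ c, C k c * z c)
  rw [Fintype.sum_prod_type, mul_assoc, Finset.sum_mul]
  refine Finset.sum_congr rfl fun a _ => ?_
  rw [Fintype.sum_prod_type, Finset.sum_mul, Finset.mul_sum]
  refine Finset.sum_congr rfl fun b _ => ?_
  rw [Finset.mul_sum, Finset.mul_sum]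
  refine Finset.sum_congr rfl fun c _ => ?_
  change (A i a * (B j b * C k c)) * (x a * y b * z c) = _
  ring

/-- the linear isometry `A ⊗ B ⊗ C` -/
def LL (hA : SI A) (hB : SI B) (hC : SI C) : TF p q r ≃ₗᵢ[ℝ] TF p q r :=
  symLI (KK A B C) (KK_transpose hA hB hC) (KK_sq hA hB hC)

theorem LL_tens (hA : SI A) (hB : SI B) (hC : SI C) (x : Fin (p + 1) → ℝ) (y : Fin (q + 1) → ℝ)
    (z : Fin (r + 1) → ℝ) :
    LL hA hB hC (tens x y z) = tens (A.mulVec x) (B.mulVec y) (C.mulVec z) :=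
  KK_mulVec x y z

theorem LL_mem (hA : SI A) (hB : SI B) (hC : SI C) : ∀ T ∈ SS p q r, LL hA hB hC T ∈ SS p q r := by
  rintro T ⟨x, y, z, hx, hy, hz, rfl⟩
  rw [LL_tens]
  exact ⟨_, _, _, by rw [hA.sq_mulVec, hx], by rw [hB.sq_mulVec, hy], by rw [hC.sq_mulVec, hz], rfl⟩

theorem LL_mem' (hA : SI A) (hB : SI B) (hC : SI C) :
    ∀ T ∈ SS p q r, (LL hA hB hC).symm T ∈ SS p q r := LL_mem hA hB hC

theorem LL_LL (hA : SI A) (hB : SI B) (hC : SI C) (T : TF p q r) :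
    LL hA hB hC (LL hA hB hC T) = T := (LL hA hB hC).symm_apply_apply T

section topology

theorem sq_eq_norm {n : ℕ} (x : EuclideanSpace ℝ (Fin n)) : sq x.ofLp = ‖x‖ ^ 2 :=
  (EuclideanSpace.real_norm_sq_eq x).symm

theorem norm_one_of_sq {n : ℕ} {x : EuclideanSpace ℝ (Fin n)} (h : ‖x‖ ^ 2 = 1) : ‖x‖ = 1 := by
  nlinarith [norm_nonneg x]

/-- the tensor map on Euclidean vectors -/
def tm (v : EuclideanSpace ℝ (Fin (p + 1)) × EuclideanSpace ℝ (Fin (q + 1)) ×
    EuclideanSpace ℝ (Fin (r + 1))) : TF p q r := tens v.1.ofLp v.2.1.ofLp v.2.2.ofLp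

theorem continuous_tm : Continuous (tm : _ → TF p q r) := by
  have : (tm : _ → TF p q r) = fun v => WithLp.toLp 2 (fun t => v.1 t.1 * v.2.1 t.2.1 * v.2.2 t.2.2) := rfl
  rw [this]
  fun_prop

theorem SS_eq_image : SS p q r = tm '' (Metric.sphere 0 1 ×ˢ (Metric.sphere 0 1 ×ˢ
    Metric.sphere 0 1)) := by
  ext T
  constructor
  · rintro ⟨x, y, z, hx, hy, hz, rfl⟩
    refine ⟨(WithLp.toLp 2 x, WithLp.toLp 2 y, WithLp.toLp 2 z), ⟨?_, ?_, ?_⟩, rfl⟩
    · rw [mem_sphere_zero_iff_norm]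
      have := sq_eq_norm (WithLp.toLp 2 x : EuclideanSpace ℝ (Fin (p + 1)))
      rw [hx] at this
      exact norm_one_of_sq this.symm
    · rw [mem_sphere_zero_iff_norm]
      have := sq_eq_norm (WithLp.toLp 2 y : EuclideanSpace ℝ (Fin (q + 1)))
      rw [hy] at this
      exact norm_one_of_sq this.symm
    · rw [mem_sphere_zero_iff_norm]
      have := sq_eq_norm (WithLp.toLp 2 z : EuclideanSpace ℝ (Fin (r + 1)))
      rw [hz] at this
      exact norm_one_of_sq this.symm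
  · rintro ⟨⟨x, y, z⟩, ⟨hx, hy, hz⟩, rfl⟩
    rw [mem_sphere_zero_iff_norm] at hx hy hz
    exact ⟨x.ofLp, y.ofLp, z.ofLp, by rw [sq_eq_norm, hx, one_pow], by rw [sq_eq_norm, hy, one_pow],
      by rw [sq_eq_norm, hz, one_pow], rfl⟩

theorem isCompact_SS : IsCompact (SS p q r) := by
  rw [SS_eq_image]
  exact ((isCompact_sphere _ _).prod ((isCompact_sphere _ _).prod (isCompact_sphere _ _))).image
    continuous_tm

theorem rank_gt {n : ℕ} (hn : 0 < n) : 1 < Module.rank ℝ (EuclideanSpace ℝ (Fin (n + 1))) := by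
  rw [rank_eq_card_basis (EuclideanSpace.basisFun (Fin (n + 1)) ℝ).toBasis, Fintype.card_fin]
  exact_mod_cast Nat.lt_add_of_pos_left hn

theorem isPreconnected_SS (hp : 0 < p) (hq : 0 < q) (hr : 0 < r) : IsPreconnected (SS p q r) := by
  rw [SS_eq_image]
  exact ((isPreconnected_sphere (rank_gt hp) _ _).prod ((isPreconnected_sphere (rank_gt hq) _ _).prod
    (isPreconnected_sphere (rank_gt hr) _ _))).image _ continuous_tm.continuousOn

instance : CompactSpace (seg p q r).Mf := isCompact_iff_compactSpace.1 isCompact_SS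

theorem pre_seg (hp : 0 < p) (hq : 0 < q) (hr : 0 < r) : PreconnectedSpace (seg p q r).Mf :=
  isPreconnected_iff_preconnectedSpace.1 (isPreconnected_SS hp hq hr)

end topology

end Pool.Agent.H891R2.Sym
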