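import Pool.Agent.H891R2.Sym.Two

/-! The two-number of the five-dimensional Segre manifold is at most 8. -/

open Set Matrix Bundle Manifold
open scoped ContDiff Manifold

noncomputable section

namespace Pool.Agent.H891R2.Sym
set_option linter.unusedSectionVars false
set_option linter.unusedVariables false

open Pool.Agent.Helper381

theorem no_orth {n m : ℕ} (hnm : n < m) (v : Fin m → Fin n → ℝ) (h1 : ∀ i, sq (v i) = 1)
    (h0 : ∀ i j, i ≠ j → v i ⬝ᵥ v j = 0) : False := by
  have ho : Orthonormal ℝ (fun i => (WithLp.toLp 2 (v i) : EuclideanSpace ℝ (Fin n))) := by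
    constructor
    · intro i
      apply norm_one_of_sq
      rw [← sq_eq_norm]
      exact h1 i
    · intro i j hij
      rw [PiLp.inner_apply]
      simp only [RCLike.inner_apply, conj_trivial]
      rw [← h0 j i hij.symm]
      rfl
  have := ho.linearIndependent.fintype_card_le_finrank
  rw [finrank_euclideanSpace_fin, Fintype.card_fin] at this
  omega

section comb

variable {X Y Z : Fin 5 → Fin 5 → Prop}

theorem comb4 (sY : ∀ i j, Y i j → Y j i) (sZ : ∀ i j, Z i j → Z j i)
    (tX : ∀ i j k, X i j → X j k → X i k) (sX : ∀ i j, X i j → X j i)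
    (tY : ∀ i j k, Y i j → Y j k → Y i k) (tZ : ∀ i j k, Z i j → Z j k → Z i k)
    (h1 : ∀ i j, i ≠ j → (X i j ∧ ¬ Y i j ∧ ¬ Z i j) ∨ (¬ X i j ∧ Y i j ∧ ¬ Z i j) ∨
      (¬ X i j ∧ ¬ Y i j ∧ Z i j))
    (h4 : ∀ a b c d, a ≠ b → a ≠ c → a ≠ d → b ≠ c → b ≠ d → c ≠ d → ¬ Y a b → ¬ Y a c → ¬ Y a d →
      ¬ Y b c → ¬ Y b d → ¬ Y c d → False)
    (a b c d : Fin 5) (hab : a ≠ b) (hac : a ≠ c) (had : a ≠ d) (hbc : b ≠ c) (hbd : b ≠ d)
    (hcd : c ≠ d) (x1 : X a b) (x2 : X b c) (x3 : X a c) : False := by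
  have g1 : ∀ i j, i ≠ j → X i j → ¬ Y i j ∧ ¬ Z i j := by
    intro i j hij hx
    rcases h1 i j hij with h | h | h
    · exact h.2
    · exact absurd hx h.1
    · exact absurd hx h.1
  have g2 : ∀ i j, i ≠ j → ¬ X i j → Y i j ∨ Z i j := by
    intro i j hij hx
    rcases h1 i j hij with h | h | h
    · exact absurd h.1 hx
    · exact Or.inl h.2.1
    · exact Or.inr h.2.2
  by_cases hx : X a d
  · have xb : X b d := tX _ _ _ (sX _ _ x1) hx
    have xc : X c d := tX _ _ _ (sX _ _ x3) hx
    exact h4 a b c d hab hac had hbc hbd hcd (g1 _ _ hab x1).1 (g1 _ _ hac x3).1 (g1 _ _ had hx).1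
      (g1 _ _ hbc x2).1 (g1 _ _ hbd xb).1 (g1 _ _ hcd xc).1
  · have xb : ¬ X b d := fun h => hx (tX _ _ _ x1 h)
    have xc : ¬ X c d := fun h => hx (tX _ _ _ x3 h)
    rcases g2 _ _ had hx with ya | za <;> rcases g2 _ _ hbd xb with yb | zb <;>
      rcases g2 _ _ hcd xc with yc | zc
    · exact (g1 _ _ hab x1).1 (tY _ _ _ ya (sY _ _ yb))
    · exact (g1 _ _ hab x1).1 (tY _ _ _ ya (sY _ _ yb))
    · exact (g1 _ _ hac x3).1 (tY _ _ _ ya (sY _ _ yc))
    · exact (g1 _ _ hbc x2).2 (tZ _ _ _ zb (sZ _ _ zc))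
    · exact (g1 _ _ hbc x2).1 (tY _ _ _ yb (sY _ _ yc))
    · exact (g1 _ _ hac x3).2 (tZ _ _ _ za (sZ _ _ zc))
    · exact (g1 _ _ hab x1).2 (tZ _ _ _ za (sZ _ _ zb))
    · exact (g1 _ _ hab x1).2 (tZ _ _ _ za (sZ _ _ zb))

theorem comb5 (sY : ∀ i j, Y i j → Y j i) (sZ : ∀ i j, Z i j → Z j i)
    (tX : ∀ i j k, X i j → X j k → X i k) (sX : ∀ i j, X i j → X j i)
    (tY : ∀ i j k, Y i j → Y j k → Y i k) (tZ : ∀ i j k, Z i j → Z j k → Z i k)
    (h1 : ∀ i j, i ≠ j → (X i j ∧ ¬ Y i j ∧ ¬ Z i j) ∨ (¬ X i j ∧ Y i j ∧ ¬ Z i j) ∨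
      (¬ X i j ∧ ¬ Y i j ∧ Z i j))
    (h3 : ∀ a b c, a ≠ b → a ≠ c → b ≠ c → ¬ X a b → ¬ X a c → ¬ X b c → False)
    (h4 : ∀ a b c d, a ≠ b → a ≠ c → a ≠ d → b ≠ c → b ≠ d → c ≠ d → ¬ Y a b → ¬ Y a c → ¬ Y a d →
      ¬ Y b c → ¬ Y b d → ¬ Y c d → False) : False := by
  have T := comb4 sY sZ tX sX tY tZ h1 h4
  have two : ∀ i j d, 0 ≠ i → 0 ≠ j → 0 ≠ d → i ≠ j → i ≠ d → j ≠ d → X 0 i → X 0 j → False := by
    intro i j d a b c e f g x1 x2
    exact T 0 i j d a b c e f g x1 (tX _ _ _ (sX _ _ x1) x2) x2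
  have three : ∀ i j k, 0 ≠ i → 0 ≠ j → 0 ≠ k → i ≠ j → i ≠ k → j ≠ k → ¬ X 0 i → ¬ X 0 j →
      ¬ X 0 k → False := by
    intro i j k a b c e f g x1 x2 x3
    have y1 : X i j := by by_contra h; exact h3 0 i j a b e x1 x2 h
    have y2 : X j k := by by_contra h; exact h3 0 j k b c g x2 x3 h
    have y3 : X i k := by by_contra h; exact h3 0 i k a c f x1 x3 h
    exact T i j k 0 e f a.symm g b.symm c.symm y1 y2 y3
  by_cases x1 : X 0 1 <;> by_cases x2 : X 0 2 <;> by_cases x3 : X 0 3 <;> by_cases x4 : X 0 4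
  · exact two 1 2 3 (by decide) (by decide) (by decide) (by decide) (by decide) (by decide) x1 x2
  · exact two 1 2 3 (by decide) (by decide) (by decide) (by decide) (by decide) (by decide) x1 x2
  · exact two 1 2 3 (by decide) (by decide) (by decide) (by decide) (by decide) (by decide) x1 x2
  · exact two 1 2 3 (by decide) (by decide) (by decide) (by decide) (by decide) (by decide) x1 x2
  · exact two 1 3 2 (by decide) (by decide) (by decide) (by decide) (by decide) (by decide) x1 x3
  · exact two 1 3 2 (by decide) (by decide) (by decide) (by decide) (by decide) (by decide) x1 x3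
  · exact two 1 4 2 (by decide) (by decide) (by decide) (by decide) (by decide) (by decide) x1 x4
  · exact three 2 3 4 (by decide) (by decide) (by decide) (by decide) (by decide) (by decide) x2 x3 x4
  · exact two 2 3 1 (by decide) (by decide) (by decide) (by decide) (by decide) (by decide) x2 x3
  · exact two 2 3 1 (by decide) (by decide) (by decide) (by decide) (by decide) (by decide) x2 x3
  · exact two 2 4 1 (by decide) (by decide) (by decide) (by decide) (by decide) (by decide) x2 x4
  · exact three 1 3 4 (by decide) (by decide) (by decide) (by decide) (by decide) (by decide) x1 x3 x4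
  · exact two 3 4 1 (by decide) (by decide) (by decide) (by decide) (by decide) (by decide) x3 x4
  · exact three 1 2 4 (by decide) (by decide) (by decide) (by decide) (by decide) (by decide) x1 x2 x4
  · exact three 1 2 3 (by decide) (by decide) (by decide) (by decide) (by decide) (by decide) x1 x2 x3
  · exact three 1 2 3 (by decide) (by decide) (by decide) (by decide) (by decide) (by decide) x1 x2 x3

end comb

/-- parallel unit vectors -/
def par {n : ℕ} (x y : Fin n → ℝ) : Prop := (x ⬝ᵥ y) ^ 2 = 1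

theorem par_symm {n : ℕ} {x y : Fin n → ℝ} (h : par x y) : par y x := by
  unfold par at *
  rwa [dotProduct_comm]

theorem par_trans {n : ℕ} {x y z : Fin n → ℝ} (hx : sq x = 1) (hy : sq y = 1)
    (h : par x y) (h' : par y z) : par x z := by
  have h1 := eq_smul_of_dot hx hy h
  unfold par at *
  rw [h1, smul_dotProduct, smul_eq_mul, mul_pow, h, one_mul] at h'
  exact h'

/-- there are no five pairwise non-proportional points fixing each other -/
theorem no_five (f : Fin 5 → M5) (h : ∀ i j, sy (f i) (f j) = f j)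
    (hne : ∀ i j, i ≠ j → inc (f j) ≠ inc (f i) ∧ inc (f j) ≠ - inc (f i)) : False := by
  have key : ∀ i j, i ≠ j →
      (par (fx (f i)) (fx (f j)) ∧ fy (f i) ⬝ᵥ fy (f j) = 0 ∧ fz (f i) ⬝ᵥ fz (f j) = 0) ∨
      (fx (f i) ⬝ᵥ fx (f j) = 0 ∧ par (fy (f i)) (fy (f j)) ∧ fz (f i) ⬝ᵥ fz (f j) = 0) ∨
      (fx (f i) ⬝ᵥ fx (f j) = 0 ∧ fy (f i) ⬝ᵥ fy (f j) = 0 ∧ par (fz (f i)) (fz (f j))) := by
    intro i j hij
    rcases sy_fix_cases (h i j) with ⟨a, b, c⟩ | h1 | h1 | h1
    · exfalso
      rcases eq_or_neg_of_sq a b c with e | e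
      · exact (hne i j hij).1 e
      · exact (hne i j hij).2 e
    · exact Or.inl h1
    · exact Or.inr (Or.inl h1)
    · exact Or.inr (Or.inr h1)
  have npar : ∀ {n : ℕ} {x y : Fin n → ℝ}, x ⬝ᵥ y = 0 → ¬ par x y := by
    intro n x y h0 h1
    unfold par at h1
    rw [h0] at h1
    norm_num at h1
  have orthX : ∀ i j, i ≠ j → ¬ par (fx (f i)) (fx (f j)) → fx (f i) ⬝ᵥ fx (f j) = 0 := by
    intro i j hij hn
    rcases key i j hij with h1 | h1 | h1
    · exact absurd h1.1 hn
    · exact h1.1
    · exact h1.1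
  have orthY : ∀ i j, i ≠ j → ¬ par (fy (f i)) (fy (f j)) → fy (f i) ⬝ᵥ fy (f j) = 0 := by
    intro i j hij hn
    rcases key i j hij with h1 | h1 | h1
    · exact h1.2.1
    · exact absurd h1.2.1 hn
    · exact h1.2.1
  refine comb5 (X := fun i j => par (fx (f i)) (fx (f j))) (Y := fun i j => par (fy (f i)) (fy (f j)))
    (Z := fun i j => par (fz (f i)) (fz (f j))) (fun i j => par_symm) (fun i j => par_symm)
    (fun i j k => par_trans (hfx _) (hfx _)) (fun i j => par_symm)
    (fun i j k => par_trans (hfy _) (hfy _)) (fun i j k => par_trans (hfz _) (hfz _)) ?_ ?_ ?_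
  · intro i j hij
    rcases key i j hij with h1 | h1 | h1
    · exact Or.inl ⟨h1.1, npar h1.2.1, npar h1.2.2⟩
    · exact Or.inr (Or.inl ⟨npar h1.1, h1.2.1, npar h1.2.2⟩)
    · exact Or.inr (Or.inr ⟨npar h1.1, npar h1.2.1, h1.2.2⟩)
  · intro a b c hab hac hbc n1 n2 n3
    have o1 := orthX _ _ hab n1
    have o2 := orthX _ _ hac n2
    have o3 := orthX _ _ hbc n3
    refine no_orth (n := 2) (m := 3) (by norm_num) ![fx (f a), fx (f b), fx (f c)] ?_ ?_
    · intro i
      fin_cases i
      · exact hfx _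
      · exact hfx _
      · exact hfx _
    · intro i j hij
      fin_cases i <;> fin_cases j
      · exact absurd rfl hij
      · exact o1
      · exact o2
      · exact (dotProduct_comm _ _).trans o1
      · exact absurd rfl hij
      · exact o3
      · exact (dotProduct_comm _ _).trans o2
      · exact (dotProduct_comm _ _).trans o3
      · exact absurd rfl hij
  · intro a b c d hab hac had hbc hbd hcd n1 n2 n3 n4 n5 n6
    have o1 := orthY _ _ hab n1
    have o2 := orthY _ _ hac n2
    have o3 := orthY _ _ had n3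
    have o4 := orthY _ _ hbc n4
    have o5 := orthY _ _ hbd n5
    have o6 := orthY _ _ hcd n6
    refine no_orth (n := 3) (m := 4) (by norm_num) ![fy (f a), fy (f b), fy (f c), fy (f d)] ?_ ?_
    · intro i
      fin_cases i
      · exact hfy _
      · exact hfy _
      · exact hfy _
      · exact hfy _
    · intro i j hij
      fin_cases i <;> fin_cases j
      · exact absurd rfl hij
      · exact o1
      · exact o2
      · exact o3
      · exact (dotProduct_comm _ _).trans o1
      · exact absurd rfl hij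
      · exact o4
      · exact o5
      · exact (dotProduct_comm _ _).trans o2
      · exact (dotProduct_comm _ _).trans o4
      · exact absurd rfl hij
      · exact o6
      · exact (dotProduct_comm _ _).trans o3
      · exact (dotProduct_comm _ _).trans o5
      · exact (dotProduct_comm _ _).trans o6
      · exact absurd rfl hij

/-- equality up to sign -/
def pm : Setoid M5 where
  r T T' := inc T' = inc T ∨ inc T' = - inc T
  iseqv := by
    refine ⟨fun T => Or.inl rfl, ?_, ?_⟩
    · rintro T T' (h | h)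
      · exact Or.inl h.symm
      · right; rw [h, neg_neg]
    · rintro T T' T'' (h | h) (h' | h')
      · left; rw [h', h]
      · right; rw [h', h]
      · right; rw [h', h]
      · left; rw [h', h, neg_neg]

theorem two_le_8 : twoNumber M5 ≤ 8 := by
  classical
  apply iSup_le
  rintro ⟨A, hA⟩
  by_contra hcon
  rw [not_le] at hcon
  have h9 : (9 : ℕ∞) ≤ A.encard := by
    have := Order.add_one_le_of_lt hcon
    have e : (8 : ℕ∞) + 1 = 9 := by norm_num
    rwa [e] at this
  obtain ⟨B, hBA, hB⟩ := Set.exists_subset_encard_eq h9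
  have hfin : B.Finite := Set.finite_of_encard_eq_coe (k := 9) (by rw [hB]; rfl)
  set B' := hfin.toFinset with hB'
  have hcard : B'.card = 9 := by
    have := hfin.encard_eq_coe_toFinset_card
    rw [hB] at this
    exact_mod_cast this.symm
  let g : M5 → Quotient pm := fun T => Quotient.mk pm T
  have hfib : ∀ a ∈ B'.image g, (B'.filter (fun x => g x = a)).card ≤ 2 := by
    intro a _
    by_contra h
    rw [not_le, Finset.two_lt_card] at h
    obtain ⟨x, hx, y, hy, z, hz, hxy, hxz, hyz⟩ := h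
    simp only [Finset.mem_filter] at hx hy hz
    have e1 : g x = g y := by rw [hx.2, hy.2]
    have e2 : g x = g z := by rw [hx.2, hz.2]
    have r1 : inc y = inc x ∨ inc y = - inc x := Quotient.exact e1
    have r2 : inc z = inc x ∨ inc z = - inc x := Quotient.exact e2
    rcases r1 with r1 | r1
    · exact hxy (inc_inj r1).symm
    · rcases r2 with r2 | r2
      · exact hxz (inc_inj r2).symm
      · exact hyz (inc_inj (by rw [r1, r2]))
  have h5 := Finset.card_le_mul_card_image B' 2 hfib
  rw [hcard] at h5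
  have h5' : 5 ≤ (B'.image g).card := by omega
  obtain ⟨Q, hQ, hQc⟩ := Finset.exists_subset_card_eq h5'
  let e := Q.equivFinOfCardEq hQc
  have hch : ∀ i : Fin 5, ∃ b ∈ B', g b = (e.symm i).1 := by
    intro i
    have := hQ (e.symm i).2
    rw [Finset.mem_image] at this
    exact this
  choose b hb1 hb2 using hch
  have hbA : ∀ i, b i ∈ A := fun i => hBA (hfin.mem_toFinset.1 (hb1 i))
  apply no_five b
  · intro i j
    exact antipodal_sy hA (hbA i) (hbA j)
  · intro i j hij
    have hne : g (b i) ≠ g (b j) := by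
      rw [hb2, hb2]
      intro h
      exact hij (e.symm.injective (Subtype.ext h))
    constructor
    · intro h
      exact hne (Quotient.sound (show inc (b j) = inc (b i) ∨ inc (b j) = - inc (b i) from Or.inl h))
    · intro h
      exact hne (Quotient.sound (show inc (b j) = inc (b i) ∨ inc (b j) = - inc (b i) from Or.inr h))

end Pool.Agent.H891R2.Sym
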