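import Pool.Agent.Helper562.Imm

/-! Submanifolds of a Euclidean space given by an atlas of global parametrizations, with the
induced Riemannian metric. -/

open Bundle Bornology Set MeasureTheory Manifold Filter Topology
open scoped ContDiff Manifold NNReal

noncomputable section

namespace Pool.Agent.H891R2.Sym
set_option maxSynthPendingDepth 3
set_option linter.unusedSectionVars false
set_option linter.unusedVariables false

/-- A subset `S` of `F` covered by open sets `U a`, each of which meets `S` in the image of a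
smooth parametrization `ψ a : E → F` with smooth inverse `φ a`. -/
structure EmbData (E F ι : Type) [NormedAddCommGroup E] [NormedSpace ℝ E]
    [NormedAddCommGroup F] [InnerProductSpace ℝ F] where
  S : Set F
  U : ι → Set F
  φ : ι → F → E
  ψ : ι → E → F
  openU : ∀ a, IsOpen (U a)
  smφ : ∀ a, ContDiffOn ℝ ∞ (φ a) (U a)
  smψ : ∀ a, ContDiff ℝ ∞ (ψ a)
  ψS : ∀ a v, ψ a v ∈ S
  ψU : ∀ a v, ψ a v ∈ U a
  φψ : ∀ a v, φ a (ψ a v) = v
  ψφ : ∀ a x, x ∈ S → x ∈ U a → ψ a (φ a x) = x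
  cover : ∀ x ∈ S, ∃ a, x ∈ U a

namespace EmbData

variable {E F ι : Type} [NormedAddCommGroup E] [NormedSpace ℝ E]
    [NormedAddCommGroup F] [InnerProductSpace ℝ F] (d : EmbData E F ι)

/-- the manifold: the subset `S` with the subspace topology -/
def Mf : Type := {x : F // x ∈ d.S}

instance : TopologicalSpace d.Mf := inferInstanceAs (TopologicalSpace {x : F // x ∈ d.S})

instance : T2Space d.Mf := inferInstanceAs (T2Space {x : F // x ∈ d.S})

instance : T3Space d.Mf := inferInstanceAs (T3Space {x : F // x ∈ d.S})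

/-- the inclusion -/
def i (x : d.Mf) : F := x.1

theorem i_inj : Function.Injective d.i := Subtype.val_injective

theorem i_emb : IsEmbedding d.i := IsEmbedding.subtypeVal

theorem i_cont : Continuous d.i := continuous_subtype_val

/-- the chart -/
def ch (a : ι) : OpenPartialHomeomorph d.Mf E where
  toFun x := d.φ a x.1
  invFun v := ⟨d.ψ a v, d.ψS a v⟩
  source := {x | x.1 ∈ d.U a}
  target := univ
  map_source' := fun x hx => mem_univ _
  map_target' := fun v hv => d.ψU a v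
  left_inv' := fun x hx => Subtype.ext (d.ψφ a x.1 x.2 hx)
  right_inv' := fun v hv => d.φψ a v
  open_source := (d.openU a).preimage d.i_cont
  open_target := isOpen_univ
  continuousOn_toFun := (d.smφ a).continuousOn.comp d.i_cont.continuousOn (fun x hx => hx)
  continuousOn_invFun := by
    apply Continuous.continuousOn
    exact (d.smψ a).continuous.subtype_mk _

@[simp] theorem ch_apply (a : ι) (x : d.Mf) : d.ch a x = d.φ a x.1 := rfl
theorem ch_symm_apply (a : ι) (v : E) : d.i ((d.ch a).symm v) = d.ψ a v := rfl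
theorem mem_ch_source (a : ι) (x : d.Mf) : x ∈ (d.ch a).source ↔ x.1 ∈ d.U a := Iff.rfl
theorem ch_target (a : ι) : (d.ch a).target = univ := rfl

/-- a chart index around the point -/
def idx (x : d.Mf) : ι := (d.cover x.1 x.2).choose

theorem idx_spec (x : d.Mf) : x.1 ∈ d.U (d.idx x) := (d.cover x.1 x.2).choose_spec

instance : ChartedSpace E d.Mf where
  atlas := range d.ch
  chartAt x := d.ch (d.idx x)
  mem_chart_source x := d.idx_spec x
  chart_mem_atlas x := ⟨_, rfl⟩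

theorem chartAt_eq (x : d.Mf) : chartAt E x = d.ch (d.idx x) := rfl

instance : IsManifold 𝓘(ℝ, E) ∞ d.Mf := by
  apply isManifold_of_contDiffOn
  rintro e e' ⟨a, rfl⟩ ⟨b, rfl⟩
  simp only [modelWithCornersSelf_coe, modelWithCornersSelf_coe_symm, Function.comp_id,
    Function.id_comp, OpenPartialHomeomorph.coe_trans, range_id, inter_univ, preimage_id,
    OpenPartialHomeomorph.trans_source]
  refine (d.smφ b).comp (d.smψ a).contDiffOn ?_
  intro v hv
  exact hv.2

theorem ch_mem_maximalAtlas (a : ι) : d.ch a ∈ IsManifold.maximalAtlas 𝓘(ℝ, E) ∞ d.Mf :=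
  IsManifold.subset_maximalAtlas ⟨a, rfl⟩

theorem contMDiff_i : ContMDiff 𝓘(ℝ, E) 𝓘(ℝ, F) ∞ d.i := by
  intro x
  have h1 : ContMDiffAt 𝓘(ℝ, E) 𝓘(ℝ, E) ∞ (d.ch (d.idx x)) x :=
    contMDiffAt_of_mem_maximalAtlas (d.ch_mem_maximalAtlas _) (d.idx_spec x)
  have h2 : ContMDiffAt 𝓘(ℝ, E) 𝓘(ℝ, F) ∞ (d.ψ (d.idx x)) (d.ch (d.idx x) x) :=
    (d.smψ _).contMDiff.contMDiffAt
  refine (h2.comp x h1).congr_of_eventuallyEq ?_
  filter_upwards [(d.ch (d.idx x)).open_source.mem_nhds (d.idx_spec x)] with y hy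
  exact (d.ψφ _ y.1 y.2 hy).symm

/-- a map into `M` is smooth as soon as it is smooth as a map into `F` -/
theorem contMDiffAt_of_i {G N : Type*} [NormedAddCommGroup G] [NormedSpace ℝ G]
    [TopologicalSpace N] [ChartedSpace G N] {f : N → d.Mf} {x : N} {n : ℕ∞ω} (hn : n ≤ (∞ : ℕ∞ω))
    (hf : ContMDiffAt 𝓘(ℝ, G) 𝓘(ℝ, F) n (fun y => d.i (f y)) x) :
    ContMDiffAt 𝓘(ℝ, G) 𝓘(ℝ, E) n f x := by
  set a := d.idx (f x) with ha
  have hfc : ContinuousAt f x := d.i_emb.continuousAt_iff.2 hf.continuousAt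
  have h0 : d.i (f x) ∈ d.U a := d.idx_spec (f x)
  have h1 : ContMDiffAt 𝓘(ℝ, F) 𝓘(ℝ, E) n (d.φ a) (d.i (f x)) :=
    (((d.smφ a).contDiffAt ((d.openU a).mem_nhds h0)).of_le hn).contMDiffAt
  have h2 : ContMDiffAt 𝓘(ℝ, G) 𝓘(ℝ, E) n (fun y => d.φ a (d.i (f y))) x := h1.comp x hf
  have h3 : ContMDiffAt 𝓘(ℝ, E) 𝓘(ℝ, E) n (d.ch a).symm (d.φ a (d.i (f x))) :=
    (contMDiffAt_symm_of_mem_maximalAtlas (d.ch_mem_maximalAtlas a) (mem_univ _)).of_le hn
  refine (h3.comp x h2).congr_of_eventuallyEq ?_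
  have hev : ∀ᶠ y in 𝓝 x, f y ∈ (d.ch a).source :=
    hfc.eventually_mem ((d.ch a).open_source.mem_nhds (d.idx_spec (f x)))
  filter_upwards [hev] with y hy
  exact ((d.ch a).left_inv hy).symm

theorem D_inj (x : d.Mf) : Function.Injective (Helper562.Imm.D (E := E) d.i x) := by
  set a := d.idx x
  have h0 : d.i x ∈ d.U a := d.idx_spec x
  have hm := mdifferentiable_of_mem_atlas (I := 𝓘(ℝ, E)) (chart_mem_atlas E x)
  have h1 := hm.mfderiv_injective (mem_chart_source E x)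
  have h2 : mfderiv 𝓘(ℝ, E) 𝓘(ℝ, E) (d.φ a ∘ d.i) x =
      (mfderiv 𝓘(ℝ, F) 𝓘(ℝ, E) (d.φ a) (d.i x)).comp (mfderiv 𝓘(ℝ, E) 𝓘(ℝ, F) d.i x) := by
    apply mfderiv_comp
    · exact (((d.smφ a).contDiffAt ((d.openU a).mem_nhds h0)).contMDiffAt).mdifferentiableAt
        (by simp)
    · exact (d.contMDiff_i x).mdifferentiableAt (by simp)
  intro u v huv
  apply h1
  have e : (chartAt E x : d.Mf → E) = d.φ a ∘ d.i := rfl
  rw [e, h2]
  exact congrArg (mfderiv 𝓘(ℝ, F) 𝓘(ℝ, E) (d.φ a) (d.i x)) huv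

variable [FiniteDimensional ℝ E]

/-- the induced Riemannian metric -/
def metric : ContMDiffRiemannianMetric 𝓘(ℝ, E) ∞ E (fun x : d.Mf => TangentSpace 𝓘(ℝ, E) x) :=
  Helper562.Imm.metric d.i d.contMDiff_i d.D_inj

instance rb : RiemannianBundle (fun x : d.Mf => TangentSpace 𝓘(ℝ, E) x) :=
  ⟨d.metric.toRiemannianMetric⟩

instance ccb : IsContMDiffRiemannianBundle 𝓘(ℝ, E) ∞ E
    (fun x : d.Mf => TangentSpace 𝓘(ℝ, E) x) :=
  ⟨d.metric.inner, d.metric.contMDiff, fun _ _ _ => rfl⟩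

instance cb' : IsContinuousRiemannianBundle E (fun x : d.Mf => TangentSpace 𝓘(ℝ, E) x) :=
  ⟨d.metric.inner, d.metric.contMDiff.continuous, fun _ _ _ => rfl⟩

theorem inner_eq (x : d.Mf) (v w : TangentSpace 𝓘(ℝ, E) x) :
    inner ℝ v w = inner ℝ (Helper562.Imm.D (E := E) d.i x v) (Helper562.Imm.D (E := E) d.i x w) :=
  rfl

theorem enorm_eq (x : d.Mf) (v : TangentSpace 𝓘(ℝ, E) x) :
    ‖v‖ₑ = ‖Helper562.Imm.D (E := E) d.i x v‖ₑ := by
  rw [← ofReal_norm, ← ofReal_norm]
  rw [norm_eq_sqrt_real_inner, d.inner_eq x v v, ← norm_eq_sqrt_real_inner]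

theorem le_ofCurve (x y : d.Mf) : edist (d.i x) (d.i y) ≤ riemannianEDist 𝓘(ℝ, E) x y :=
  Helper562.Imm.edist_le_riemannianEDist d.i d.contMDiff_i d.enorm_eq x y

/-- the extended metric. -/
@[reducible] def emM : EMetricSpace d.Mf := EMetricSpace.ofRiemannianMetric 𝓘(ℝ, E) d.Mf

lemma edist_ne_top (hpre : PreconnectedSpace d.Mf) (x y : d.Mf) : (d.emM).edist x y ≠ ⊤ := by
  let _ : EMetricSpace d.Mf := d.emM
  have h1 : IsClopen (Metric.eball x ⊤) := ⟨Metric.isClosed_eball_top, Metric.isOpen_eball⟩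
  have h2 : Metric.eball x ⊤ = univ := by
    apply h1.eq_univ
    exact ⟨x, by simp⟩
  have h4 : y ∈ Metric.eball x ⊤ := by rw [h2]; trivial
  have h5 : edist y x < ⊤ := h4
  rw [edist_comm] at h5
  exact h5.ne

/-- the Riemannian distance makes the manifold a metric space. -/
@[reducible] def mM (hpre : PreconnectedSpace d.Mf) : MetricSpace d.Mf :=
  @EMetricSpace.toMetricSpace d.Mf (d.emM) (d.edist_ne_top hpre)

theorem isRiem (hpre : PreconnectedSpace d.Mf) :
    letI := d.mM hpre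
    IsRiemannianManifold 𝓘(ℝ, E) d.Mf := by
  letI := d.mM hpre
  exact ⟨fun x y => rfl⟩

end EmbData

end Pool.Agent.H891R2.Sym
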