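import Pool.Agent.Helper381.Main

/-! Smith inequality: isolated common fixed points of commuting isometric involutions. -/

namespace Pool.Agent.H891R2.Sym

open Pool.Agent.Helper381 Metric Set Module

universe u v w

theorem Geo.shrink {M : Type u} {E : Type v} [MetricSpace M] [NormedAddCommGroup E]
    [NormedSpace ℝ E] {R : ℝ} (G : Geo M E R) {R' : ℝ} (h0 : 0 < R') (h : R' ≤ R) :
    Geo M E R' where
  Rpos := h0
  chart := fun p => by
    obtain ⟨c, hc⟩ := G.chart p
    exact ⟨c, (ball_subset_ball h).trans hc⟩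
  midpt := G.midpt

/-- a finite set of isolated common fixed points of commuting isometric involutions has at most
`dim H^*(M; F_2)` elements -/
theorem Geo.fix_card_le {M : Type u} {E : Type v} [MetricSpace M] [NormedAddCommGroup E]
    [NormedSpace ℝ E] {R₀ : ℝ} (G₀ : Geo M E R₀) [CompactSpace M] [PreconnectedSpace M]
    [Nonempty M] (gs : List (M ≃ᵢ M)) (hinv : ∀ g ∈ gs, ∀ x, g (g x) = x)
    (hcomm : ∀ g ∈ gs, ∀ h ∈ gs, ∀ x, g (h x) = h (g x)) (A : Finset M)
    (hfix : ∀ g ∈ gs, ∀ a ∈ A, g a = a) (ε : ℝ) (hε : 0 < ε)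
    (hiso0 : ∀ a ∈ A, ∀ y, dist y a < ε → (∀ g ∈ gs, g y = y) → y = a) :
    (A.card : ℕ∞) ≤ totalBetti (ZMod 2) M := by
  classical
  have : Fact (Nat.Prime 2) := ⟨Nat.prime_two⟩
  set R : ℝ := min R₀ ε with hRdef
  have hR : 0 < R := lt_min G₀.Rpos hε
  have G : Geo M E R := Geo.shrink G₀ hR (min_le_left _ _)
  have hiso : ∀ a ∈ A, ∀ y, dist y a < R → (∀ g ∈ gs, g y = y) → y = a :=
    fun a ha y hy hg => hiso0 a ha y (lt_of_lt_of_le hy (min_le_right _ _)) hg
  obtain ⟨F, hF, hFg⟩ := exists_net (M := M) gs hinv hcomm (R / 4) (by linarith)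
  have hρR : 4 * (R / 4) ≤ R := by linarith
  set ρ := R / 4 with hρ
  have hQ := Fam_finite F ρ
  obtain ⟨a1, N1, b1⟩ := G.betti_finite (ZMod 2)
  set N := max (N1) (max (Fam F ρ).ncard 1) with hN
  have hN1 : N1 ≤ N := le_max_left _ _
  have hN2 : (Fam F ρ).ncard ≤ N := le_trans (le_max_left _ _) (le_max_right _ _)
  have hN3 : 1 ≤ N := le_trans (le_max_right _ _) (le_max_right _ _)
  rw [totalBetti_eq N a1 (fun n hn => b1 n (hN1.trans hn)), Nat.cast_le]
  have e1 : ∀ n, finrank (ZMod 2) (SingCoh (ZMod 2) M n) =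
      finrank (ZMod 2) (OrdCoh (ZMod 2) (Fam F ρ) n) := by
    intro n
    obtain ⟨e⟩ := G.nerve hρR hF (ZMod 2) n
    exact LinearEquiv.finrank_eq e
  simp only [e1]
  have hgood := goodList F ρ gs hinv hcomm hFg
  have h1 := smith_list hQ (gs.map imS) hgood N hN2
  refine le_trans ?_ h1
  have h2 : finrank (ZMod 2) (OrdCoh (ZMod 2) (fixS (Fam F ρ) (gs.map imS)) 0) ≤
      ∑ n ∈ Finset.range N,
        finrank (ZMod 2) (OrdCoh (ZMod 2) (fixS (Fam F ρ) (gs.map imS)) n) :=
    Finset.single_le_sum (f := fun n =>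
      finrank (ZMod 2) (OrdCoh (ZMod 2) (fixS (Fam F ρ) (gs.map imS)) n))
      (fun _ _ => Nat.zero_le _) (Finset.mem_range.mpr hN3)
  refine le_trans ?_ h2
  have h3 := components_le (Q := fixS (Fam F ρ) (gs.map imS))
    (hQ.subset (fixS_subset _ _)) (ι := A) (fun a => Jm F ρ {a.1})
    (fun a => Jm_fixS F ρ hF gs hinv hFg a.1 (fun g hg => hfix g hg a.1 a.2))
    (fun a C => if a.1 ∈ C then 1 else 0) ?_ ?_
  · rwa [Fintype.card_coe] at h3
  · intro a C hC C' hC' hle
    have key : a.1 ∈ C' → a.1 ∈ C := by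
      intro haC'
      obtain ⟨hCF, hCg⟩ := (mem_fixS F ρ gs C).mp hC
      obtain ⟨y, hyC, hy⟩ := G.fam_fixed hρR hCF
      have hyg : ∀ g ∈ gs, g y = y := fun g hg =>
        hy g (net_iff F g (hinv g hg) (hFg g hg)) (hCg g hg)
      have hd := Fam_dist ((mem_fixS F ρ gs C').mp hC').1 (hle hyC) haC'
      have := hiso a.1 a.2 y (by linarith) hyg
      rw [← this]; exact hyC
    by_cases h : a.1 ∈ C
    · have h' : a.1 ∈ C' := hle h
      simp [h, h']
    · have h' : a.1 ∉ C' := fun h' => h (key h')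
      simp [h, h']
  · intro a b
    by_cases hab : a = b
    · subst hab
      have : a.1 ∈ Jm F ρ {a.1} := subset_Jm F ρ _ rfl
      simp [this]
    · have : a.1 ∉ Jm F ρ {b.1} := by
        intro h
        apply hab
        apply Subtype.ext
        have hJ := Jm_fixS F ρ hF gs hinv hFg b.1 (fun g hg => hfix g hg b.1 b.2)
        have hd := Fam_dist ((mem_fixS F ρ gs _).mp hJ).1 h
          (subset_Jm F ρ _ (rfl : b.1 ∈ ({b.1} : Set M)))
        exact hiso b.1 b.2 a.1 (by linarith) (fun g hg => hfix g hg a.1 a.2)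
      simp [this, hab]

end Pool.Agent.H891R2.Sym
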