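import Pool.Agent.H891R2.Sym.Emb

/-! Isometries of embedded submanifolds induced by linear isometries of the ambient space. -/

open Bundle Bornology Set MeasureTheory Manifold Filter Topology
open scoped ContDiff Manifold NNReal

noncomputable section

namespace Pool.Agent.H891R2.Sym
set_option maxSynthPendingDepth 3
set_option linter.unusedSectionVars false
set_option linter.unusedVariables false

namespace EmbData

variable {E F ι : Type} [NormedAddCommGroup E] [NormedSpace ℝ E]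
    [NormedAddCommGroup F] [InnerProductSpace ℝ F] (d : EmbData E F ι)

/-- the map induced by a linear isometry preserving `S` -/
def mp (L : F →ₗᵢ[ℝ] F) (hL : ∀ x ∈ d.S, L x ∈ d.S) (x : d.Mf) : d.Mf := ⟨L x.1, hL x.1 x.2⟩

variable (L : F →ₗᵢ[ℝ] F) (hL : ∀ x ∈ d.S, L x ∈ d.S)

theorem i_mp (x : d.Mf) : d.i (d.mp L hL x) = L (d.i x) := rfl

theorem contMDiff_mp : ContMDiff 𝓘(ℝ, E) 𝓘(ℝ, E) ∞ (d.mp L hL) := by
  intro x
  apply d.contMDiffAt_of_i le_rfl
  have h1 : ContMDiffAt 𝓘(ℝ, F) 𝓘(ℝ, F) ∞ (L : F → F) (d.i x) :=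
    L.toContinuousLinearMap.contDiff.contMDiff.contMDiffAt
  exact h1.comp x (d.contMDiff_i x)

variable [FiniteDimensional ℝ E]

theorem pathELength_mp (c : ℝ → d.Mf) (hc : ContMDiffOn 𝓘(ℝ, ℝ) 𝓘(ℝ, E) 1 c (Icc 0 1)) :
    pathELength 𝓘(ℝ, E) (d.mp L hL ∘ c) 0 1 = pathELength 𝓘(ℝ, E) c 0 1 := by
  have hc' : ContMDiffOn 𝓘(ℝ, ℝ) 𝓘(ℝ, E) 1 (d.mp L hL ∘ c) (Icc 0 1) :=
    ((d.contMDiff_mp L hL).of_le (by simp)).comp_contMDiffOn hc
  rw [Helper562.Imm.pathELength_eq d.i d.contMDiff_i d.enorm_eq c hc,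
    Helper562.Imm.pathELength_eq d.i d.contMDiff_i d.enorm_eq _ hc']
  have hcd : ContDiffOn ℝ 1 (d.i ∘ c) (Icc 0 1) := by
    rw [← contMDiffOn_iff_contDiffOn]
    exact (d.contMDiff_i.of_le (by simp)).comp_contMDiffOn hc
  apply setLIntegral_congr_fun measurableSet_Icc (fun t ht ↦ ?_)
  have h1 : HasDerivWithinAt (d.i ∘ c) (derivWithin (d.i ∘ c) (Icc 0 1) t) (Icc 0 1) t :=
    ((hcd.differentiableOn (by simp)) t ht).hasDerivWithinAt
  have h2 : HasDerivWithinAt (L ∘ (d.i ∘ c)) (L (derivWithin (d.i ∘ c) (Icc 0 1) t)) (Icc 0 1) t :=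
    L.toContinuousLinearMap.hasFDerivAt.comp_hasDerivWithinAt t h1
  have h3 : d.i ∘ (d.mp L hL ∘ c) = L ∘ (d.i ∘ c) := rfl
  change ‖derivWithin (d.i ∘ (d.mp L hL ∘ c)) (Icc 0 1) t‖ₑ = _
  rw [h3, h2.derivWithin (uniqueDiffOn_Icc zero_lt_one t ht)]
  rw [← ofReal_norm, ← ofReal_norm, L.norm_map]

theorem edist_mp_le (x y : d.Mf) :
    riemannianEDist 𝓘(ℝ, E) (d.mp L hL x) (d.mp L hL y) ≤ riemannianEDist 𝓘(ℝ, E) x y := by
  apply le_of_forall_gt
  intro r hr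
  obtain ⟨c, h0, h1, hc, hlt⟩ := exists_lt_of_riemannianEDist_lt hr
  have hc' : ContMDiffOn 𝓘(ℝ, ℝ) 𝓘(ℝ, E) 1 (d.mp L hL ∘ c) (Icc 0 1) :=
    ((d.contMDiff_mp L hL).of_le (by simp)).comp_contMDiffOn hc
  refine lt_of_le_of_lt (riemannianEDist_le_pathELength hc' (congrArg _ h0) (congrArg _ h1)
    zero_le_one) ?_
  rwa [d.pathELength_mp L hL c hc]

variable (hpre : PreconnectedSpace d.Mf)

/-- the isometry of `M` induced by a linear isometry whose inverse also preserves `S` -/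
def iso (L : F ≃ₗᵢ[ℝ] F) (hL : ∀ x ∈ d.S, L x ∈ d.S) (hL' : ∀ x ∈ d.S, L.symm x ∈ d.S) :
    letI := d.mM hpre
    d.Mf ≃ᵢ d.Mf :=
  letI := d.mM hpre
  { toFun := d.mp L.toLinearIsometry hL
    invFun := d.mp L.symm.toLinearIsometry hL'
    left_inv := fun x => Subtype.ext (L.symm_apply_apply x.1)
    right_inv := fun x => Subtype.ext (L.apply_symm_apply x.1)
    isometry_toFun := by
      intro x y
      apply le_antisymm
      · exact d.edist_mp_le L.toLinearIsometry hL x y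
      · have h := d.edist_mp_le L.symm.toLinearIsometry hL' (d.mp L.toLinearIsometry hL x)
          (d.mp L.toLinearIsometry hL y)
        have e : ∀ z : d.Mf, d.mp L.symm.toLinearIsometry hL' (d.mp L.toLinearIsometry hL z) = z :=
          fun z => Subtype.ext (L.symm_apply_apply z.1)
        rw [e, e] at h
        exact h }

theorem i_iso (L : F ≃ₗᵢ[ℝ] F) (hL : ∀ x ∈ d.S, L x ∈ d.S) (hL' : ∀ x ∈ d.S, L.symm x ∈ d.S)
    (x : d.Mf) : d.i ((d.iso hpre L hL hL') x) = L (d.i x) := rfl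

theorem dist_i_le (x y : d.Mf) : dist (d.i x) (d.i y) ≤ (d.mM hpre).dist x y := by
  have h := d.le_ofCurve x y
  have h2 : edist (d.i x) (d.i y) ≤
    @edist _ (d.mM hpre).toPseudoMetricSpace.toPseudoEMetricSpace.toEDist x y := h
  rw [edist_dist, @edist_dist _ (d.mM hpre).toPseudoMetricSpace] at h2
  exact (ENNReal.ofReal_le_ofReal_iff (@dist_nonneg _ (d.mM hpre).toPseudoMetricSpace _ _)).1 h2

end EmbData

end Pool.Agent.H891R2.Sym
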