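import Pool.Agent.H891R2.Sym.Act

/-! Reflections and the point symmetries of the Segre manifold. -/

open Set Matrix

noncomputable section

namespace Pool.Agent.H891R2.Sym
set_option linter.unusedSectionVars false
set_option linter.unusedVariables false

section vec
variable {n : ℕ}

theorem sq_eq_dot (x : Fin n → ℝ) : sq x = x ⬝ᵥ x := by simp only [sq, dotProduct, pow_two]

/-- the reflection fixing `x` and reversing its orthogonal complement -/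
def rf (x : Fin n → ℝ) : Matrix (Fin n) (Fin n) ℝ := (2 : ℝ) • vecMulVec x x - 1

theorem rf_mulVec (x u : Fin n → ℝ) : (rf x).mulVec u = (2 * (x ⬝ᵥ u)) • x - u := by
  unfold rf
  rw [Matrix.sub_mulVec, Matrix.one_mulVec, Matrix.smul_mulVec, Matrix.vecMulVec_mulVec]
  ext t
  simp only [Pi.sub_apply, Pi.smul_apply, smul_eq_mul, MulOpposite.smul_eq_mul_unop,
    MulOpposite.unop_op]
  ring

theorem rf_SI {x : Fin n → ℝ} (hx : sq x = 1) : SI (rf x) := by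
  constructor
  · unfold rf
    rw [Matrix.transpose_sub, Matrix.transpose_smul, Matrix.transpose_one]
    congr 2
    ext i j
    simp [Matrix.vecMulVec_apply, mul_comm]
  · apply Matrix.ext_of_mulVec_single
    intro i
    generalize (Pi.single i (1:ℝ) : Fin n → ℝ) = u
    rw [← Matrix.mulVec_mulVec, Matrix.one_mulVec, rf_mulVec, rf_mulVec, dotProduct_sub,
      dotProduct_smul, ← sq_eq_dot, hx]
    ext t
    simp only [Pi.sub_apply, Pi.smul_apply, smul_eq_mul]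
    ring

theorem rf_self {x : Fin n → ℝ} (hx : sq x = 1) : (rf x).mulVec x = x := by
  rw [rf_mulVec, ← sq_eq_dot, hx]
  ext t
  simp only [Pi.sub_apply, Pi.smul_apply, smul_eq_mul]
  ring

theorem sq_sub_smul {x x' : Fin n → ℝ} (hx : sq x = 1) (hx' : sq x' = 1) :
    sq (x' - (x ⬝ᵥ x') • x) = 1 - (x ⬝ᵥ x') ^ 2 := by
  rw [sq_eq_dot] at *
  rw [dotProduct_sub, sub_dotProduct, sub_dotProduct, smul_dotProduct, dotProduct_smul,
    smul_dotProduct, dotProduct_smul, hx, hx', dotProduct_comm x' x]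
  simp only [smul_eq_mul]
  ring

theorem dot_sq_le {x x' : Fin n → ℝ} (hx : sq x = 1) (hx' : sq x' = 1) : (x ⬝ᵥ x') ^ 2 ≤ 1 := by
  have := sq_sub_smul hx hx'
  have h2 := sq_nonneg' (x' - (x ⬝ᵥ x') • x)
  linarith

theorem eq_zero_of_sq {x : Fin n → ℝ} (hx : sq x = 0) : x = 0 := by
  unfold sq at hx
  rw [Finset.sum_eq_zero_iff_of_nonneg (fun i _ => sq_nonneg _)] at hx
  funext i
  exact pow_eq_zero_iff two_ne_zero |>.1 (hx i (Finset.mem_univ _))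

theorem eq_smul_of_dot {x x' : Fin n → ℝ} (hx : sq x = 1) (hx' : sq x' = 1)
    (h : (x ⬝ᵥ x') ^ 2 = 1) : x' = (x ⬝ᵥ x') • x := by
  have := sq_sub_smul hx hx'
  rw [h, sub_self] at this
  exact sub_eq_zero.1 (eq_zero_of_sq this)

theorem sq_eq_one_iff_of_side_cond {e : ℝ} (he : e ^ 2 = 1) : e = 1 ∨ e = -1 := by
  have : (e - 1) * (e + 1) = 0 := by ring_nf; linarith
  rcases mul_eq_zero.1 this with h | h
  · left; linarith
  · right; linarith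

/-- if `x' = ε s_x(x')` then `x'` is parallel or orthogonal to `x` -/
theorem rf_cases {x x' : Fin n → ℝ} (hx : sq x = 1) (hx' : sq x' = 1) {e : ℝ} (he : e ^ 2 = 1)
    (h : x' = e • (rf x).mulVec x') :
    (e = 1 ∧ (x ⬝ᵥ x') ^ 2 = 1) ∨ (e = -1 ∧ x ⬝ᵥ x' = 0) := by
  have h1 : x ⬝ᵥ x' = e * (x ⬝ᵥ x') := by
    have : x ⬝ᵥ x' = x ⬝ᵥ (e • (rf x).mulVec x') := congrArg (fun u => x ⬝ᵥ u) h
    rw [rf_mulVec, dotProduct_smul, dotProduct_sub, dotProduct_smul, ← sq_eq_dot, hx] at this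
    simp only [smul_eq_mul] at this
    linarith
  rcases sq_eq_one_iff_of_side_cond he with rfl | rfl
  · left
    refine ⟨rfl, ?_⟩
    rw [one_smul, rf_mulVec] at h
    have h2 : x' = (x ⬝ᵥ x') • x := by
      funext t
      have := congrFun h t
      simp only [Pi.sub_apply, Pi.smul_apply, smul_eq_mul] at this ⊢
      linarith
    have h3 := sq_sub_smul hx hx'
    rw [sub_eq_zero.2 h2] at h3
    have : sq (0 : Fin n → ℝ) = 0 := by simp [sq]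
    rw [this] at h3
    linarith
  · right
    exact ⟨rfl, by linarith⟩

end vec

variable {p q r : ℕ}

theorem inner_tens (x x' : Fin (p + 1) → ℝ) (y y' : Fin (q + 1) → ℝ) (z z' : Fin (r + 1) → ℝ) :
    inner ℝ (tens x y z) (tens x' y' z') = (x ⬝ᵥ x') * (y ⬝ᵥ y') * (z ⬝ᵥ z') := by
  rw [PiLp.inner_apply]
  simp only [tens_apply, RCLike.inner_apply, conj_trivial, dotProduct]
  rw [Fintype.sum_prod_type, mul_assoc, Finset.sum_mul]
  refine Finset.sum_congr rfl fun a _ => ?_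
  rw [Fintype.sum_prod_type, Finset.sum_mul, Finset.mul_sum]
  refine Finset.sum_congr rfl fun b _ => ?_
  rw [Finset.mul_sum, Finset.mul_sum]
  refine Finset.sum_congr rfl fun c _ => ?_
  ring

theorem norm_tens {x : Fin (p + 1) → ℝ} {y : Fin (q + 1) → ℝ} {z : Fin (r + 1) → ℝ}
    (hx : sq x = 1) (hy : sq y = 1) (hz : sq z = 1) : ‖tens x y z‖ = 1 := by
  have h : ‖tens x y z‖ ^ 2 = 1 := by
    rw [← real_inner_self_eq_norm_sq, inner_tens, ← sq_eq_dot, ← sq_eq_dot, ← sq_eq_dot, hx, hy, hz]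
    norm_num
  nlinarith [norm_nonneg (tens x y z)]

theorem tens_smul (a b c : ℝ) (x : Fin (p + 1) → ℝ) (y : Fin (q + 1) → ℝ) (z : Fin (r + 1) → ℝ) :
    tens (a • x) (b • y) (c • z) = (a * b * c) • tens x y z := by
  ext t
  simp only [tens_apply, Pi.smul_apply, smul_eq_mul, PiLp.smul_apply]
  ring

theorem three_sq {a b c : ℝ} (ha : a ^ 2 ≤ 1) (hb : b ^ 2 ≤ 1) (hc : c ^ 2 ≤ 1)
    (h : a * b * c = 1) : a ^ 2 = 1 ∧ b ^ 2 = 1 ∧ c ^ 2 = 1 := by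
  have h2 : a ^ 2 * b ^ 2 * c ^ 2 = 1 := by
    have : a ^ 2 * b ^ 2 * c ^ 2 = (a * b * c) ^ 2 := by ring
    rw [this, h, one_pow]
  have ha0 := sq_nonneg a
  have hb0 := sq_nonneg b
  have hc0 := sq_nonneg c
  have hab : a ^ 2 * b ^ 2 ≤ 1 := by nlinarith
  have hbc : b ^ 2 * c ^ 2 ≤ 1 := by nlinarith
  have hac : a ^ 2 * c ^ 2 ≤ 1 := by nlinarith
  refine ⟨?_, ?_, ?_⟩ <;> nlinarith

/-- equality of unit rank-one tensors -/
theorem tens_eq {x x' : Fin (p + 1) → ℝ} {y y' : Fin (q + 1) → ℝ} {z z' : Fin (r + 1) → ℝ}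
    (hx : sq x = 1) (hy : sq y = 1) (hz : sq z = 1) (hx' : sq x' = 1) (hy' : sq y' = 1)
    (hz' : sq z' = 1) (h : tens x y z = tens x' y' z') :
    ∃ a b c : ℝ, a ^ 2 = 1 ∧ b ^ 2 = 1 ∧ c ^ 2 = 1 ∧ a * b * c = 1 ∧ x' = a • x ∧ y' = b • y ∧
      z' = c • z := by
  have h1 : (x ⬝ᵥ x') * (y ⬝ᵥ y') * (z ⬝ᵥ z') = 1 := by
    rw [← inner_tens, ← h, real_inner_self_eq_norm_sq, norm_tens hx hy hz, one_pow]
  obtain ⟨ha, hb, hc⟩ := three_sq (dot_sq_le hx hx') (dot_sq_le hy hy') (dot_sq_le hz hz') h1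
  exact ⟨_, _, _, ha, hb, hc, h1, eq_smul_of_dot hx hx' ha, eq_smul_of_dot hy hy' hb,
    eq_smul_of_dot hz hz' hc⟩

/-- the four possibilities for a point fixed by the symmetry at `x ⊗ y ⊗ z` -/
theorem fix_cases {x x' : Fin (p + 1) → ℝ} {y y' : Fin (q + 1) → ℝ} {z z' : Fin (r + 1) → ℝ}
    (hx : sq x = 1) (hy : sq y = 1) (hz : sq z = 1) (hx' : sq x' = 1) (hy' : sq y' = 1)
    (hz' : sq z' = 1)
    (h : tens ((rf x).mulVec x') ((rf y).mulVec y') ((rf z).mulVec z') = tens x' y' z') :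
    ((x ⬝ᵥ x') ^ 2 = 1 ∧ (y ⬝ᵥ y') ^ 2 = 1 ∧ (z ⬝ᵥ z') ^ 2 = 1) ∨
    ((x ⬝ᵥ x') ^ 2 = 1 ∧ y ⬝ᵥ y' = 0 ∧ z ⬝ᵥ z' = 0) ∨
    (x ⬝ᵥ x' = 0 ∧ (y ⬝ᵥ y') ^ 2 = 1 ∧ z ⬝ᵥ z' = 0) ∨
    (x ⬝ᵥ x' = 0 ∧ y ⬝ᵥ y' = 0 ∧ (z ⬝ᵥ z') ^ 2 = 1) := by
  obtain ⟨a, b, c, ha, hb, hc, habc, h1, h2, h3⟩ := tens_eq
    (by rw [(rf_SI hx).sq_mulVec, hx']) (by rw [(rf_SI hy).sq_mulVec, hy'])
    (by rw [(rf_SI hz).sq_mulVec, hz']) hx' hy' hz' h
  rcases rf_cases hx hx' ha h1 with ⟨rfl, hA⟩ | ⟨rfl, hA⟩ <;>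
  rcases rf_cases hy hy' hb h2 with ⟨rfl, hB⟩ | ⟨rfl, hB⟩ <;>
  rcases rf_cases hz hz' hc h3 with ⟨rfl, hC⟩ | ⟨rfl, hC⟩ <;>
  first
    | exact Or.inl ⟨hA, hB, hC⟩
    | exact Or.inr (Or.inl ⟨hA, hB, hC⟩)
    | exact Or.inr (Or.inr (Or.inl ⟨hA, hB, hC⟩))
    | exact Or.inr (Or.inr (Or.inr ⟨hA, hB, hC⟩))
    | exact absurd habc (by norm_num)

end Pool.Agent.H891R2.Sym
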