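import Pool.Agent.H891R2.Sym.Iso

/-! The Segre manifold: unit rank-one tensors in `ℝ^(p+1) ⊗ ℝ^(q+1) ⊗ ℝ^(r+1)`. -/

open Set

noncomputable section

namespace Pool.Agent.H891R2.Sym
set_option linter.unusedSectionVars false
set_option linter.unusedVariables false

variable {p q r : ℕ}

/-- the Euclidean space of tensors -/
abbrev TF (p q r : ℕ) : Type := EuclideanSpace ℝ (Fin (p + 1) × Fin (q + 1) × Fin (r + 1))

/-- the parameter space -/
abbrev TE (p q r : ℕ) : Type := (Fin p → ℝ) × (Fin q → ℝ) × (Fin r → ℝ)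

/-- the rank-one tensor `x ⊗ y ⊗ z` -/
def tens (x : Fin (p + 1) → ℝ) (y : Fin (q + 1) → ℝ) (z : Fin (r + 1) → ℝ) : TF p q r :=
  WithLp.toLp 2 (fun t => x t.1 * y t.2.1 * z t.2.2)

@[simp] theorem tens_apply (x : Fin (p + 1) → ℝ) (y : Fin (q + 1) → ℝ) (z : Fin (r + 1) → ℝ)
    (t : Fin (p + 1) × Fin (q + 1) × Fin (r + 1)) : tens x y z t = x t.1 * y t.2.1 * z t.2.2 := rfl

/-- the affine chart point with `i`-th coordinate `1` -/
def PP {n : ℕ} (i : Fin (n + 1)) (u : Fin n → ℝ) : Fin (n + 1) → ℝ :=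
  Fin.insertNth (α := fun _ => ℝ) i 1 u

@[simp] theorem PP_same {n : ℕ} (i : Fin (n + 1)) (u : Fin n → ℝ) : PP i u i = 1 :=
  Fin.insertNth_apply_same _ _ _

@[simp] theorem PP_succAbove {n : ℕ} (i : Fin (n + 1)) (u : Fin n → ℝ) (a : Fin n) :
    PP i u (i.succAbove a) = u a := Fin.insertNth_apply_succAbove _ _ _ _

/-- sum of squares -/
def sq {n : ℕ} (x : Fin n → ℝ) : ℝ := ∑ i, x i ^ 2

theorem sq_nonneg' {n : ℕ} (x : Fin n → ℝ) : 0 ≤ sq x := Finset.sum_nonneg fun i _ => sq_nonneg _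

theorem sq_PP {n : ℕ} (i : Fin (n + 1)) (u : Fin n → ℝ) : sq (PP i u) = 1 + sq u := by
  unfold sq
  rw [Fin.sum_univ_succAbove _ i]
  simp

theorem sq_PP_pos {n : ℕ} (i : Fin (n + 1)) (u : Fin n → ℝ) : 0 < sq (PP i u) := by
  rw [sq_PP]; have := sq_nonneg' u; linarith

theorem sq_smul {n : ℕ} (c : ℝ) (x : Fin n → ℝ) : sq (c • x) = c ^ 2 * sq x := by
  unfold sq
  rw [Finset.mul_sum]
  exact Finset.sum_congr rfl fun i _ => by simp [mul_pow]

theorem contDiff_PP {n : ℕ} (i : Fin (n + 1)) (t : Fin (n + 1)) :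
    ContDiff ℝ (⊤ : ℕ∞) (fun u : Fin n → ℝ => PP i u t) := by
  rcases Fin.eq_self_or_eq_succAbove i t with h | ⟨a, h⟩
  · subst h; simp only [PP_same]; exact contDiff_const
  · subst h; simp only [PP_succAbove]; exact contDiff_apply ℝ ℝ a

theorem contDiff_sq {n : ℕ} : ContDiff ℝ (⊤ : ℕ∞) (fun u : Fin n → ℝ => sq u) := by
  unfold sq
  exact ContDiff.sum fun i _ => (contDiff_apply ℝ ℝ i).pow 2

/-- unit rank-one tensors -/
def SS (p q r : ℕ) : Set (TF p q r) :=
  {T | ∃ x y z, sq x = 1 ∧ sq y = 1 ∧ sq z = 1 ∧ T = tens x y z}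

/-- sign of a Boolean -/
def sg (b : Bool) : ℝ := if b then 1 else -1

theorem sg_mul_self (b : Bool) : sg b * sg b = 1 := by cases b <;> simp [sg]

theorem sg_ne (b : Bool) : sg b ≠ 0 := by cases b <;> simp [sg]

/-- the square of the normalisation factor -/
def NN (v : TE p q r) : ℝ := (1 + sq v.1) * (1 + sq v.2.1) * (1 + sq v.2.2)

theorem NN_pos (v : TE p q r) : 0 < NN v := by
  have h1 := sq_nonneg' v.1
  have h2 := sq_nonneg' v.2.1
  have h3 := sq_nonneg' v.2.2
  unfold NN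
  positivity

theorem contDiff_NN : ContDiff ℝ (⊤ : ℕ∞) (NN : TE p q r → ℝ) := by
  unfold NN
  apply ContDiff.mul
  · apply ContDiff.mul
    · exact contDiff_const.add (contDiff_sq.comp contDiff_fst)
    · exact contDiff_const.add (contDiff_sq.comp (contDiff_fst.comp contDiff_snd))
  · exact contDiff_const.add (contDiff_sq.comp (contDiff_snd.comp contDiff_snd))

/-- the parametrizations -/
def psi (a : (Fin (p + 1) × Fin (q + 1) × Fin (r + 1)) × Bool) (v : TE p q r) : TF p q r :=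
  WithLp.toLp 2 (fun t => sg a.2 * (Real.sqrt (NN v))⁻¹ *
    (PP a.1.1 v.1 t.1 * PP a.1.2.1 v.2.1 t.2.1 * PP a.1.2.2 v.2.2 t.2.2))

theorem psi_apply (a : (Fin (p + 1) × Fin (q + 1) × Fin (r + 1)) × Bool) (v : TE p q r)
    (t : Fin (p + 1) × Fin (q + 1) × Fin (r + 1)) :
    psi a v t = sg a.2 * (Real.sqrt (NN v))⁻¹ *
    (PP a.1.1 v.1 t.1 * PP a.1.2.1 v.2.1 t.2.1 * PP a.1.2.2 v.2.2 t.2.2) := rfl

/-- the affine coordinates -/
def phi (a : (Fin (p + 1) × Fin (q + 1) × Fin (r + 1)) × Bool) (T : TF p q r) : TE p q r :=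
  (fun i => T (a.1.1.succAbove i, a.1.2.1, a.1.2.2) / T a.1,
   fun i => T (a.1.1, a.1.2.1.succAbove i, a.1.2.2) / T a.1,
   fun i => T (a.1.1, a.1.2.1, a.1.2.2.succAbove i) / T a.1)

/-- the chart domains -/
def UU (a : (Fin (p + 1) × Fin (q + 1) × Fin (r + 1)) × Bool) : Set (TF p q r) :=
  {T | 0 < sg a.2 * T a.1}

theorem phi_psi (a : (Fin (p + 1) × Fin (q + 1) × Fin (r + 1)) × Bool) (v : TE p q r) :
    phi a (psi a v) = v := by
  obtain ⟨⟨i, j, k⟩, s⟩ := a
  have hN : Real.sqrt (NN v) ≠ 0 := (Real.sqrt_pos.2 (NN_pos v)).ne'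
  have hs := sg_ne s
  unfold phi
  refine Prod.ext ?_ (Prod.ext ?_ ?_)
  · funext t
    simp only [psi_apply, PP_same, PP_succAbove, mul_one]
    field_simp
  · funext t
    simp only [psi_apply, PP_same, PP_succAbove, mul_one, one_mul]
    field_simp
  · funext t
    simp only [psi_apply, PP_same, PP_succAbove, mul_one, one_mul]
    field_simp

theorem psi_mem_U (a : (Fin (p + 1) × Fin (q + 1) × Fin (r + 1)) × Bool) (v : TE p q r) :
    psi a v ∈ UU a := by
  obtain ⟨⟨i, j, k⟩, s⟩ := a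
  have hN : 0 < (Real.sqrt (NN v))⁻¹ := inv_pos.2 (Real.sqrt_pos.2 (NN_pos v))
  change 0 < sg s * _
  rw [psi_apply]
  simp only [PP_same, mul_one]
  rw [← mul_assoc, sg_mul_self, one_mul]
  exact hN

theorem psi_mem_S (a : (Fin (p + 1) × Fin (q + 1) × Fin (r + 1)) × Bool) (v : TE p q r) :
    psi a v ∈ SS p q r := by
  obtain ⟨⟨i, j, k⟩, s⟩ := a
  have h1 := sq_PP_pos i v.1
  have h2 := sq_PP_pos j v.2.1
  have h3 := sq_PP_pos k v.2.2
  have e1 : ((Real.sqrt (sq (PP i v.1)))⁻¹) ^ 2 * sq (PP i v.1) = 1 := by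
    rw [inv_pow, Real.sq_sqrt h1.le, inv_mul_cancel₀ h1.ne']
  have e2 : ((Real.sqrt (sq (PP j v.2.1)))⁻¹) ^ 2 * sq (PP j v.2.1) = 1 := by
    rw [inv_pow, Real.sq_sqrt h2.le, inv_mul_cancel₀ h2.ne']
  have e3 : ((Real.sqrt (sq (PP k v.2.2)))⁻¹) ^ 2 * sq (PP k v.2.2) = 1 := by
    rw [inv_pow, Real.sq_sqrt h3.le, inv_mul_cancel₀ h3.ne']
  refine ⟨(sg s * (Real.sqrt (sq (PP i v.1)))⁻¹) • PP i v.1,
    (Real.sqrt (sq (PP j v.2.1)))⁻¹ • PP j v.2.1,
    (Real.sqrt (sq (PP k v.2.2)))⁻¹ • PP k v.2.2, ?_, ?_, ?_, ?_⟩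
  · rw [sq_smul, mul_pow, pow_two (sg s), sg_mul_self, one_mul]; exact e1
  · rw [sq_smul]; exact e2
  · rw [sq_smul]; exact e3
  · ext t
    rw [psi_apply, tens_apply]
    have hN : Real.sqrt (NN v) = Real.sqrt (sq (PP i v.1)) * Real.sqrt (sq (PP j v.2.1)) *
        Real.sqrt (sq (PP k v.2.2)) := by
      rw [← Real.sqrt_mul h1.le, ← Real.sqrt_mul (mul_pos h1 h2).le]
      unfold NN
      rw [sq_PP, sq_PP, sq_PP]
    rw [hN]
    simp only [Pi.smul_apply, smul_eq_mul, mul_inv]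
    ring

theorem psi_phi (a : (Fin (p + 1) × Fin (q + 1) × Fin (r + 1)) × Bool) (T : TF p q r)
    (hT : T ∈ SS p q r) (hU : T ∈ UU a) : psi a (phi a T) = T := by
  obtain ⟨⟨i, j, k⟩, s⟩ := a
  obtain ⟨x, y, z, hx, hy, hz, rfl⟩ := hT
  change 0 < sg s * (x i * y j * z k) at hU
  have hne : x i * y j * z k ≠ 0 := by
    intro h; rw [h, mul_zero] at hU; exact lt_irrefl _ hU
  have hxi : x i ≠ 0 := by intro h; apply hne; rw [h]; ring
  have hyj : y j ≠ 0 := by intro h; apply hne; rw [h]; ring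
  have hzk : z k ≠ 0 := by intro h; apply hne; rw [h]; ring
  have p1 : ∀ t, PP i (fun b => tens x y z (i.succAbove b, j, k) / tens x y z (i, j, k)) t =
      (x i)⁻¹ * x t := by
    intro t
    rcases Fin.eq_self_or_eq_succAbove i t with h | ⟨a, h⟩
    · subst h; rw [PP_same]; field_simp
    · subst h; rw [PP_succAbove, tens_apply, tens_apply]; field_simp
  have p2 : ∀ t, PP j (fun b => tens x y z (i, j.succAbove b, k) / tens x y z (i, j, k)) t =
      (y j)⁻¹ * y t := by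
    intro t
    rcases Fin.eq_self_or_eq_succAbove j t with h | ⟨a, h⟩
    · subst h; rw [PP_same]; field_simp
    · subst h; rw [PP_succAbove, tens_apply, tens_apply]; field_simp
  have p3 : ∀ t, PP k (fun b => tens x y z (i, j, k.succAbove b) / tens x y z (i, j, k)) t =
      (z k)⁻¹ * z t := by
    intro t
    rcases Fin.eq_self_or_eq_succAbove k t with h | ⟨a, h⟩
    · subst h; rw [PP_same]; field_simp
    · subst h; rw [PP_succAbove, tens_apply, tens_apply]; field_simp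
  have q1 : 1 + sq (fun b => tens x y z (i.succAbove b, j, k) / tens x y z (i, j, k)) =
      ((x i)⁻¹) ^ 2 := by
    rw [← sq_PP i]
    have : PP i (fun b => tens x y z (i.succAbove b, j, k) / tens x y z (i, j, k)) =
      (x i)⁻¹ • x := funext p1
    rw [this, sq_smul, hx, mul_one]
  have q2 : 1 + sq (fun b => tens x y z (i, j.succAbove b, k) / tens x y z (i, j, k)) =
      ((y j)⁻¹) ^ 2 := by
    rw [← sq_PP j]
    have : PP j (fun b => tens x y z (i, j.succAbove b, k) / tens x y z (i, j, k)) =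
      (y j)⁻¹ • y := funext p2
    rw [this, sq_smul, hy, mul_one]
  have q3 : 1 + sq (fun b => tens x y z (i, j, k.succAbove b) / tens x y z (i, j, k)) =
      ((z k)⁻¹) ^ 2 := by
    rw [← sq_PP k]
    have : PP k (fun b => tens x y z (i, j, k.succAbove b) / tens x y z (i, j, k)) =
      (z k)⁻¹ • z := funext p3
    rw [this, sq_smul, hz, mul_one]
  have hNN : NN (phi ((i, j, k), s) (tens x y z)) = ((sg s * (x i * y j * z k))⁻¹) ^ 2 := by
    change (1 + sq (fun b => tens x y z (i.succAbove b, j, k) / tens x y z (i, j, k))) *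
      (1 + sq (fun b => tens x y z (i, j.succAbove b, k) / tens x y z (i, j, k))) *
      (1 + sq (fun b => tens x y z (i, j, k.succAbove b) / tens x y z (i, j, k))) = _
    rw [q1, q2, q3, mul_inv, mul_inv, mul_inv, mul_pow, mul_pow, mul_pow]
    have : (sg s)⁻¹ ^ 2 = 1 := by cases s <;> simp [sg]
    rw [this]; ring
  have hsq : Real.sqrt (NN (phi ((i, j, k), s) (tens x y z))) = (sg s * (x i * y j * z k))⁻¹ := by
    rw [hNN, Real.sqrt_sq (inv_pos.2 hU).le]
  ext t
  rw [psi_apply, hsq, inv_inv, tens_apply]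
  change sg s * (sg s * (x i * y j * z k)) *
    (PP i (fun b => tens x y z (i.succAbove b, j, k) / tens x y z (i, j, k)) t.1 *
    PP j (fun b => tens x y z (i, j.succAbove b, k) / tens x y z (i, j, k)) t.2.1 *
    PP k (fun b => tens x y z (i, j, k.succAbove b) / tens x y z (i, j, k)) t.2.2) = _
  rw [p1, p2, p3, ← mul_assoc (sg s), sg_mul_self, one_mul]
  field_simp

theorem exists_ne_of_sq {n : ℕ} {x : Fin n → ℝ} (hx : sq x = 1) : ∃ i, x i ≠ 0 := by
  by_contra h
  push Not at h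
  have : sq x = 0 := by
    unfold sq
    exact Finset.sum_eq_zero fun i _ => by rw [h i]; simp
  rw [this] at hx
  exact zero_ne_one hx

theorem cover_S (T : TF p q r) (hT : T ∈ SS p q r) :
    ∃ a : (Fin (p + 1) × Fin (q + 1) × Fin (r + 1)) × Bool, T ∈ UU a := by
  obtain ⟨x, y, z, hx, hy, hz, rfl⟩ := hT
  obtain ⟨i, hi⟩ := exists_ne_of_sq hx
  obtain ⟨j, hj⟩ := exists_ne_of_sq hy
  obtain ⟨k, hk⟩ := exists_ne_of_sq hz
  have hne : x i * y j * z k ≠ 0 := mul_ne_zero (mul_ne_zero hi hj) hk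
  rcases lt_or_gt_of_ne hne with h | h
  · refine ⟨((i, j, k), false), ?_⟩
    change 0 < sg false * (x i * y j * z k)
    simp only [sg]
    norm_num
    exact h
  · refine ⟨((i, j, k), true), ?_⟩
    change 0 < sg true * (x i * y j * z k)
    simp only [sg]
    norm_num
    exact h

theorem contDiff_coord (t : Fin (p + 1) × Fin (q + 1) × Fin (r + 1)) :
    ContDiff ℝ (⊤ : ℕ∞) (fun T : TF p q r => T t) :=
  (EuclideanSpace.proj (𝕜 := ℝ) t).contDiff

theorem contDiff_psi (a : (Fin (p + 1) × Fin (q + 1) × Fin (r + 1)) × Bool) :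
    ContDiff ℝ (⊤ : ℕ∞) (psi a : TE p q r → TF p q r) := by
  rw [contDiff_euclidean]
  intro t
  change ContDiff ℝ (⊤ : ℕ∞) (fun v : TE p q r => sg a.2 * (Real.sqrt (NN v))⁻¹ *
    (PP a.1.1 v.1 t.1 * PP a.1.2.1 v.2.1 t.2.1 * PP a.1.2.2 v.2.2 t.2.2))
  apply ContDiff.mul
  · apply contDiff_const.mul
    apply ContDiff.inv
    · exact contDiff_NN.sqrt (fun v => (NN_pos v).ne')
    · intro v; exact (Real.sqrt_pos.2 (NN_pos v)).ne'
  · apply ContDiff.mul
    · apply ContDiff.mul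
      · exact (contDiff_PP _ _).comp contDiff_fst
      · exact (contDiff_PP _ _).comp (contDiff_fst.comp contDiff_snd)
    · exact (contDiff_PP _ _).comp (contDiff_snd.comp contDiff_snd)

theorem contDiffOn_phi (a : (Fin (p + 1) × Fin (q + 1) × Fin (r + 1)) × Bool) :
    ContDiffOn ℝ (⊤ : ℕ∞) (phi a : TF p q r → TE p q r) (UU a) := by
  have hne : ∀ T ∈ UU (p := p) (q := q) (r := r) a, T a.1 ≠ 0 := by
    intro T hT h
    change 0 < sg a.2 * T a.1 at hT
    rw [h, mul_zero] at hT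
    exact lt_irrefl _ hT
  unfold phi
  apply ContDiffOn.prodMk
  · rw [contDiffOn_pi]
    intro i
    exact (contDiff_coord _).contDiffOn.div (contDiff_coord _).contDiffOn hne
  · apply ContDiffOn.prodMk
    · rw [contDiffOn_pi]
      intro i
      exact (contDiff_coord _).contDiffOn.div (contDiff_coord _).contDiffOn hne
    · rw [contDiffOn_pi]
      intro i
      exact (contDiff_coord _).contDiffOn.div (contDiff_coord _).contDiffOn hne

theorem isOpen_UU (a : (Fin (p + 1) × Fin (q + 1) × Fin (r + 1)) × Bool) :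
    IsOpen (UU a : Set (TF p q r)) :=
  isOpen_lt continuous_const (continuous_const.mul (contDiff_coord a.1).continuous)

/-- the Segre manifold of unit rank-one tensors -/
def seg (p q r : ℕ) : EmbData (TE p q r) (TF p q r)
    ((Fin (p + 1) × Fin (q + 1) × Fin (r + 1)) × Bool) where
  S := SS p q r
  U := UU
  φ := phi
  ψ := psi
  openU := isOpen_UU
  smφ := contDiffOn_phi
  smψ := contDiff_psi
  ψS := psi_mem_S
  ψU := psi_mem_U
  φψ := phi_psi
  ψφ := psi_phi
  cover := cover_S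

end Pool.Agent.H891R2.Sym
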