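import Pool.Agent.H891R2.Sym.Bound

/-! Ten isolated common fixed points of two commuting isometric involutions. -/

open Set Matrix Bundle Manifold
open scoped ContDiff Manifold

noncomputable section

namespace Pool.Agent.H891R2.Sym
set_option linter.unusedSectionVars false
set_option linter.unusedVariables false

open Pool.Agent.Helper381

theorem diag_SI {n : ℕ} {s : Fin n → ℝ} (hs : ∀ i, s i * s i = 1) : SI (Matrix.diagonal s) := by
  constructor
  · exact Matrix.diagonal_transpose s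
  · rw [Matrix.diagonal_mul_diagonal]
    have : (fun i => s i * s i) = fun _ => (1 : ℝ) := funext hs
    rw [this, Matrix.diagonal_one]

def a1 : Fin 2 → ℝ := ![1, -1]
def a2 : Fin 3 → ℝ := ![1, 1, -1]
def b1 : Fin 2 → ℝ := ![1, 1]
def b2 : Fin 3 → ℝ := ![1, -1, 1]

theorem ha1 : ∀ i, a1 i * a1 i = 1 := by intro i; fin_cases i <;> simp [a1]
theorem ha2 : ∀ i, a2 i * a2 i = 1 := by intro i; fin_cases i <;> simp [a2]
theorem hb1 : ∀ i, b1 i * b1 i = 1 := by intro i; fin_cases i <;> simp [b1]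
theorem hb2 : ∀ i, b2 i * b2 i = 1 := by intro i; fin_cases i <;> simp [b2]

theorem a1_inj : ∀ i j, a1 i = a1 j → i = j := by
  intro i j
  fin_cases i <;> fin_cases j <;> simp [a1] <;> norm_num
theorem ab_inj : ∀ i j, a2 i = a2 j → b2 i = b2 j → i = j := by
  intro i j
  fin_cases i <;> fin_cases j <;> simp [a2, b2] <;> norm_num

/-- the first involution -/
def sig : M5 ≃ᵢ M5 := act (diag_SI ha1) (diag_SI ha2) (diag_SI ha2)
/-- the second involution -/
def tau : M5 ≃ᵢ M5 := act (diag_SI hb1) (diag_SI hb2) (diag_SI hb2)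

theorem inc_act_diag {s1 : Fin 2 → ℝ} {s2 s3 : Fin 3 → ℝ} (h1 : ∀ i, s1 i * s1 i = 1)
    (h2 : ∀ i, s2 i * s2 i = 1) (h3 : ∀ i, s3 i * s3 i = 1) (T : M5)
    (t : Fin 2 × Fin 3 × Fin 3) :
    inc (act (diag_SI h1) (diag_SI h2) (diag_SI h3) T) t =
      (s1 t.1 * s2 t.2.1 * s3 t.2.2) * inc T t := by
  rw [inc_act, inc_eq T, LL_tens, tens_apply, tens_apply, Matrix.mulVec_diagonal,
    Matrix.mulVec_diagonal, Matrix.mulVec_diagonal]
  ring

theorem inc_sig (T : M5) (t : Fin 2 × Fin 3 × Fin 3) :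
    inc (sig T) t = (a1 t.1 * a2 t.2.1 * a2 t.2.2) * inc T t := inc_act_diag ha1 ha2 ha2 T t
theorem inc_tau (T : M5) (t : Fin 2 × Fin 3 × Fin 3) :
    inc (tau T) t = (b1 t.1 * b2 t.2.1 * b2 t.2.2) * inc T t := inc_act_diag hb1 hb2 hb2 T t

theorem inc_ext {T T' : M5} (h : ∀ t, inc T t = inc T' t) : T = T' := by
  apply inc_inj
  ext t
  exact h t

theorem sig_tau (T : M5) : sig (tau T) = tau (sig T) := by
  apply inc_ext
  intro t
  rw [inc_sig, inc_tau, inc_tau, inc_sig]
  ring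

/-- a common fixed point has only one nonzero coordinate -/
theorem fixed_single {T : M5} (h1 : sig T = T) (h2 : tau T = T) {t0 : Fin 2 × Fin 3 × Fin 3}
    (h0 : inc T t0 ≠ 0) (t : Fin 2 × Fin 3 × Fin 3) (ht : t ≠ t0) : inc T t = 0 := by
  have s1 : ∀ t, inc T t ≠ 0 → a1 t.1 * a2 t.2.1 * a2 t.2.2 = 1 := by
    intro t ht
    have := inc_sig T t
    rw [h1] at this
    exact mul_right_cancel₀ ht (by rw [one_mul]; exact this.symm)
  have s2 : ∀ t, inc T t ≠ 0 → b1 t.1 * b2 t.2.1 * b2 t.2.2 = 1 := by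
    intro t ht
    have := inc_tau T t
    rw [h2] at this
    exact mul_right_cancel₀ ht (by rw [one_mul]; exact this.symm)
  have e : ∀ i j k, inc T (i, j, k) = fx T i * fy T j * fz T k := by
    intro i j k; rw [inc_eq T]; rfl
  obtain ⟨i0, j0, k0⟩ := t0
  obtain ⟨i, j, k⟩ := t
  rw [e] at h0
  have hx0 : fx T i0 ≠ 0 := by intro h; apply h0; rw [h]; ring
  have hy0 : fy T j0 ≠ 0 := by intro h; apply h0; rw [h]; ring
  have hz0 : fz T k0 ≠ 0 := by intro h; apply h0; rw [h]; ring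
  have nz : ∀ i j k, fx T i ≠ 0 → fy T j ≠ 0 → fz T k ≠ 0 → inc T (i, j, k) ≠ 0 := by
    intro i j k a b c
    rw [e]
    exact mul_ne_zero (mul_ne_zero a b) c
  have na2 : ∀ i, a2 i ≠ 0 := fun i h => by have := ha2 i; rw [h] at this; norm_num at this
  have na1 : ∀ i, a1 i ≠ 0 := fun i h => by have := ha1 i; rw [h] at this; norm_num at this
  have nb2 : ∀ i, b2 i ≠ 0 := fun i h => by have := hb2 i; rw [h] at this; norm_num at this
  have nb1 : ∀ i, b1 i ≠ 0 := fun i h => by have := hb1 i; rw [h] at this; norm_num at this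
  have cx : ∀ i, fx T i ≠ 0 → i = i0 := by
    intro i hi
    apply a1_inj
    have q1 := s1 _ (nz i j0 k0 hi hy0 hz0)
    have q2 := s1 _ (nz i0 j0 k0 hx0 hy0 hz0)
    simp only at q1 q2
    have : a1 i * (a2 j0 * a2 k0) = a1 i0 * (a2 j0 * a2 k0) := by
      rw [← mul_assoc, ← mul_assoc, q1, q2]
    exact mul_right_cancel₀ (mul_ne_zero (na2 _) (na2 _)) this
  have cy : ∀ j, fy T j ≠ 0 → j = j0 := by
    intro j hj
    have q1 := s1 _ (nz i0 j k0 hx0 hj hz0)
    have q2 := s1 _ (nz i0 j0 k0 hx0 hy0 hz0)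
    have q3 := s2 _ (nz i0 j k0 hx0 hj hz0)
    have q4 := s2 _ (nz i0 j0 k0 hx0 hy0 hz0)
    simp only at q1 q2 q3 q4
    apply ab_inj
    · have : a2 j * (a1 i0 * a2 k0) = a2 j0 * (a1 i0 * a2 k0) := by linarith
      exact mul_right_cancel₀ (mul_ne_zero (na1 _) (na2 _)) this
    · have : b2 j * (b1 i0 * b2 k0) = b2 j0 * (b1 i0 * b2 k0) := by linarith
      exact mul_right_cancel₀ (mul_ne_zero (nb1 _) (nb2 _)) this
  have cz : ∀ k, fz T k ≠ 0 → k = k0 := by
    intro k hk
    have q1 := s1 _ (nz i0 j0 k hx0 hy0 hk)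
    have q2 := s1 _ (nz i0 j0 k0 hx0 hy0 hz0)
    have q3 := s2 _ (nz i0 j0 k hx0 hy0 hk)
    have q4 := s2 _ (nz i0 j0 k0 hx0 hy0 hz0)
    simp only at q1 q2 q3 q4
    apply ab_inj
    · have : a2 k * (a1 i0 * a2 j0) = a2 k0 * (a1 i0 * a2 j0) := by linarith
      exact mul_right_cancel₀ (mul_ne_zero (na1 _) (na2 _)) this
    · have : b2 k * (b1 i0 * b2 j0) = b2 k0 * (b1 i0 * b2 j0) := by linarith
      exact mul_right_cancel₀ (mul_ne_zero (nb1 _) (nb2 _)) this
  rw [e]
  by_contra hne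
  apply ht
  have hx : fx T i ≠ 0 := by intro h; apply hne; rw [h]; ring
  have hy : fy T j ≠ 0 := by intro h; apply hne; rw [h]; ring
  have hz : fz T k ≠ 0 := by intro h; apply hne; rw [h]; ring
  rw [cx i hx, cy j hy, cz k hz]

/-- the five positions -/
def pos5 : Fin 5 → Fin 2 × Fin 3 × Fin 3 := ![(0, 0, 0), (0, 1, 1), (0, 2, 2), (1, 0, 2), (1, 2, 0)]

theorem pos5_inj : Function.Injective pos5 := by decide

theorem sq_single {n : ℕ} (i : Fin n) (c : ℝ) : sq (Pi.single i c) = c ^ 2 := by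
  unfold sq
  rw [Finset.sum_eq_single i]
  · simp
  · intro j _ hj; simp [Pi.single_eq_of_ne hj]
  · intro h; exact absurd (Finset.mem_univ _) h

/-- the ten points -/
def pt (w : Fin 5 × Bool) : M5 :=
  ⟨tens (Pi.single (pos5 w.1).1 (sg w.2)) (Pi.single (pos5 w.1).2.1 1) (Pi.single (pos5 w.1).2.2 1),
    ⟨_, _, _, by rw [sq_single, pow_two, sg_mul_self], by rw [sq_single, one_pow],
      by rw [sq_single, one_pow], rfl⟩⟩

theorem inc_pt (w : Fin 5 × Bool) (t : Fin 2 × Fin 3 × Fin 3) :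
    inc (pt w) t = if t = pos5 w.1 then sg w.2 else 0 := by
  change (Pi.single (pos5 w.1).1 (sg w.2) : Fin 2 → ℝ) t.1 *
    (Pi.single (pos5 w.1).2.1 1 : Fin 3 → ℝ) t.2.1 * (Pi.single (pos5 w.1).2.2 1 : Fin 3 → ℝ) t.2.2 = _
  obtain ⟨i, j, k⟩ := t
  generalize pos5 w.1 = P
  obtain ⟨i0, j0, k0⟩ := P
  simp only [Prod.mk.injEq]
  by_cases hi : i = i0
  · by_cases hj : j = j0
    · by_cases hk : k = k0
      · subst hi; subst hj; subst hk; simp
      · rw [if_neg (by tauto), Pi.single_eq_of_ne hk]; ring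
    · rw [if_neg (by tauto), Pi.single_eq_of_ne hj]; ring
  · rw [if_neg (by tauto), Pi.single_eq_of_ne hi]; ring

theorem pt_inj : Function.Injective pt := by
  rintro ⟨m, b⟩ ⟨m', b'⟩ h
  have h1 := congrArg (fun T => inc T (pos5 m)) h
  simp only [inc_pt, if_true] at h1
  by_cases hm : pos5 m = pos5 m'
  · have := pos5_inj hm
    subst this
    rw [if_pos rfl] at h1
    have : b = b' := by
      cases b <;> cases b' <;> simp [sg] at h1 ⊢ <;> norm_num at h1
    rw [this]
  · rw [if_neg hm] at h1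
    exact absurd h1 (sg_ne b)

theorem sig_pt (w : Fin 5 × Bool) : sig (pt w) = pt w := by
  apply inc_ext
  intro t
  rw [inc_sig, inc_pt]
  split_ifs with h
  · subst h
    have : a1 (pos5 w.1).1 * a2 (pos5 w.1).2.1 * a2 (pos5 w.1).2.2 = 1 := by
      generalize w.1 = m
      fin_cases m <;> simp [pos5, a1, a2]
    rw [this, one_mul]
  · rw [mul_zero]

theorem tau_pt (w : Fin 5 × Bool) : tau (pt w) = pt w := by
  apply inc_ext
  intro t
  rw [inc_tau, inc_pt]
  split_ifs with h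
  · subst h
    have : b1 (pos5 w.1).1 * b2 (pos5 w.1).2.1 * b2 (pos5 w.1).2.2 = 1 := by
      generalize w.1 = m
      fin_cases m <;> simp [pos5, b1, b2]
    rw [this, one_mul]
  · rw [mul_zero]

theorem isolated_pt (w : Fin 5 × Bool) (y : M5) (hy : dist y (pt w) < 1) (h1 : sig y = y)
    (h2 : tau y = y) : y = pt w := by
  have hd : ‖inc y - inc (pt w)‖ < 1 := by
    rw [← dist_eq_norm]
    exact lt_of_le_of_lt (dist_inc_le y (pt w)) hy
  have hc : |inc y (pos5 w.1) - inc (pt w) (pos5 w.1)| < 1 := by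
    have := EuclideanSpace.norm_eq (inc y - inc (pt w))
    have h3 : ‖(inc y - inc (pt w)) (pos5 w.1)‖ ≤ ‖inc y - inc (pt w)‖ := PiLp.norm_apply_le _ _
    rw [Real.norm_eq_abs] at h3
    exact lt_of_le_of_lt h3 hd
  rw [inc_pt, if_pos rfl] at hc
  have hne : inc y (pos5 w.1) ≠ 0 := by
    intro h
    rw [h, zero_sub, abs_neg] at hc
    have : |sg w.2| = 1 := by cases w.2 <;> simp [sg]
    rw [this] at hc
    exact lt_irrefl _ hc
  have hz := fixed_single h1 h2 hne
  have hn : inc y (pos5 w.1) ^ 2 = 1 := by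
    have h4 := EuclideanSpace.real_norm_sq_eq (inc y)
    rw [norm_inc, one_pow, Finset.sum_eq_single (pos5 w.1)] at h4
    · exact h4.symm
    · intro t _ ht
      rw [hz t ht]; norm_num
    · intro h; exact absurd (Finset.mem_univ _) h
  have hv : inc y (pos5 w.1) = sg w.2 := by
    rw [abs_lt] at hc
    rcases sq_eq_one_iff_of_side_cond hn with h | h <;> rw [h] at hc ⊢ <;>
      cases hw : w.2 <;> rw [hw] at hc <;> simp [sg] at hc ⊢ <;> linarith [hc.1, hc.2]
  apply inc_ext
  intro t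
  rw [inc_pt]
  split_ifs with h
  · rw [h, hv]
  · exact hz t h

theorem ten_le : (10 : ℕ∞) ≤ totalBetti (ZMod 2) M5 := by
  classical
  obtain ⟨R, G⟩ := geo5
  have hne : Nonempty M5 := ⟨pt (0, true)⟩
  have h := Geo.fix_card_le G [sig, tau] (by
      intro g hg x
      simp only [List.mem_cons, List.not_mem_nil, or_false] at hg
      rcases hg with rfl | rfl
      · exact act_act _ _ _ x
      · exact act_act _ _ _ x)
    (by
      intro g hg h hh x
      simp only [List.mem_cons, List.not_mem_nil, or_false] at hg hh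
      rcases hg with rfl | rfl <;> rcases hh with rfl | rfl
      · rfl
      · exact sig_tau x
      · exact (sig_tau x).symm
      · rfl)
    (Finset.univ.image pt) (by
      intro g hg a ha
      simp only [List.mem_cons, List.not_mem_nil, or_false] at hg
      simp only [Finset.mem_image, Finset.mem_univ, true_and] at ha
      obtain ⟨w, rfl⟩ := ha
      rcases hg with rfl | rfl
      · exact sig_pt w
      · exact tau_pt w)
    1 one_pos (by
      intro a ha y hy hg
      simp only [Finset.mem_image, Finset.mem_univ, true_and] at ha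
      obtain ⟨w, rfl⟩ := ha
      exact isolated_pt w y hy (hg _ (by simp)) (hg _ (by simp)))
  rw [Finset.card_image_of_injective _ pt_inj] at h
  simpa using h

end Pool.Agent.H891R2.Sym
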