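import Pool.Agent.H891R2.Sym.Refl
import Pool.Agent.H891R2.Sym.Fix
import Pool.Agent.Helper381.Riem3

/-! The five-dimensional Segre manifold is a symmetric space with two-number at most 8. -/

open Set Matrix Bundle Manifold
open scoped ContDiff Manifold

noncomputable section

namespace Pool.Agent.H891R2.Sym
set_option linter.unusedSectionVars false
set_option linter.unusedVariables false

open Pool.Agent.Helper381

/-- the model space of dimension 5 -/
abbrev E5 : Type := TE 1 2 2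

/-- unit rank-one tensors in `ℝ² ⊗ ℝ³ ⊗ ℝ³` -/
abbrev M5 : Type := (seg 1 2 2).Mf

theorem pre5 : PreconnectedSpace M5 := pre_seg (by norm_num) (by norm_num) (by norm_num)

instance : PreconnectedSpace M5 := pre5

instance met5 : MetricSpace M5 := (seg 1 2 2).mM pre5

instance : IsRiemannianManifold 𝓘(ℝ, E5) M5 := (seg 1 2 2).isRiem pre5

theorem geo5 : ∃ R, Geo M5 E5 R := riemannian_geo (E := E5) (M := M5)

/-- the inclusion of `M5` in the space of tensors -/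
def inc (T : M5) : TF 1 2 2 := (seg 1 2 2).i T

theorem inc_inj : Function.Injective inc := (seg 1 2 2).i_inj

theorem exists_rep (T : M5) : ∃ (x : Fin 2 → ℝ) (y z : Fin 3 → ℝ), sq x = 1 ∧ sq y = 1 ∧ sq z = 1 ∧
    inc T = tens x y z := T.2

/-- factors of a unit rank-one tensor -/
def fx (T : M5) : Fin 2 → ℝ := (exists_rep T).choose
def fy (T : M5) : Fin 3 → ℝ := (exists_rep T).choose_spec.choose
def fz (T : M5) : Fin 3 → ℝ := (exists_rep T).choose_spec.choose_spec.choose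

theorem hfx (T : M5) : sq (fx T) = 1 := (exists_rep T).choose_spec.choose_spec.choose_spec.1
theorem hfy (T : M5) : sq (fy T) = 1 := (exists_rep T).choose_spec.choose_spec.choose_spec.2.1
theorem hfz (T : M5) : sq (fz T) = 1 := (exists_rep T).choose_spec.choose_spec.choose_spec.2.2.1
theorem inc_eq (T : M5) : inc T = tens (fx T) (fy T) (fz T) :=
  (exists_rep T).choose_spec.choose_spec.choose_spec.2.2.2

/-- the isometry of `M5` given by three symmetric involutions -/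
def act {A : Matrix (Fin (1 + 1)) (Fin (1 + 1)) ℝ} {B C : Matrix (Fin (2 + 1)) (Fin (2 + 1)) ℝ}
    (hA : SI A) (hB : SI B) (hC : SI C) : M5 ≃ᵢ M5 :=
  (seg 1 2 2).iso pre5 (LL hA hB hC) (LL_mem hA hB hC) (LL_mem' hA hB hC)

section act
variable {A : Matrix (Fin (1 + 1)) (Fin (1 + 1)) ℝ} {B C : Matrix (Fin (2 + 1)) (Fin (2 + 1)) ℝ}
    (hA : SI A) (hB : SI B) (hC : SI C)

theorem inc_act (T : M5) : inc (act hA hB hC T) = LL hA hB hC (inc T) := rfl

theorem act_act (T : M5) : act hA hB hC (act hA hB hC T) = T := by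
  apply inc_inj
  rw [inc_act, inc_act, LL_LL]

end act

/-- the point symmetry -/
def sy (T : M5) : M5 ≃ᵢ M5 := act (rf_SI (hfx T)) (rf_SI (hfy T)) (rf_SI (hfz T))

theorem inc_sy (T T' : M5) : inc (sy T T') = tens ((rf (fx T)).mulVec (fx T'))
    ((rf (fy T)).mulVec (fy T')) ((rf (fz T)).mulVec (fz T')) := by
  unfold sy
  rw [inc_act, inc_eq T', LL_tens]

theorem dist_inc_le (T T' : M5) : dist (inc T) (inc T') ≤ dist T T' :=
  (seg 1 2 2).dist_i_le pre5 T T'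

theorem norm_inc (T : M5) : ‖inc T‖ = 1 := by
  rw [inc_eq, norm_tens (hfx T) (hfy T) (hfz T)]

theorem inner_inc (T T' : M5) : inner ℝ (inc T) (inc T') =
    (fx T ⬝ᵥ fx T') * (fy T ⬝ᵥ fy T') * (fz T ⬝ᵥ fz T') := by
  rw [inc_eq T, inc_eq T', inner_tens]

theorem sy_fix_cases {T T' : M5} (h : sy T T' = T') :
    ((fx T ⬝ᵥ fx T') ^ 2 = 1 ∧ (fy T ⬝ᵥ fy T') ^ 2 = 1 ∧ (fz T ⬝ᵥ fz T') ^ 2 = 1) ∨
    ((fx T ⬝ᵥ fx T') ^ 2 = 1 ∧ fy T ⬝ᵥ fy T' = 0 ∧ fz T ⬝ᵥ fz T' = 0) ∨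
    (fx T ⬝ᵥ fx T' = 0 ∧ (fy T ⬝ᵥ fy T') ^ 2 = 1 ∧ fz T ⬝ᵥ fz T' = 0) ∨
    (fx T ⬝ᵥ fx T' = 0 ∧ fy T ⬝ᵥ fy T' = 0 ∧ (fz T ⬝ᵥ fz T') ^ 2 = 1) := by
  apply fix_cases (hfx T) (hfy T) (hfz T) (hfx T') (hfy T') (hfz T')
  rw [← inc_sy, h, inc_eq]

theorem eq_or_neg_of_sq {T T' : M5} (h1 : (fx T ⬝ᵥ fx T') ^ 2 = 1) (h2 : (fy T ⬝ᵥ fy T') ^ 2 = 1)
    (h3 : (fz T ⬝ᵥ fz T') ^ 2 = 1) : inc T' = inc T ∨ inc T' = - inc T := by
  have e1 := eq_smul_of_dot (hfx T) (hfx T') h1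
  have e2 := eq_smul_of_dot (hfy T) (hfy T') h2
  have e3 := eq_smul_of_dot (hfz T) (hfz T') h3
  have e : inc T' = ((fx T ⬝ᵥ fx T') * (fy T ⬝ᵥ fy T') * (fz T ⬝ᵥ fz T')) • inc T := by
    rw [inc_eq T', inc_eq T, ← tens_smul, ← e1, ← e2, ← e3]
  have h : ((fx T ⬝ᵥ fx T') * (fy T ⬝ᵥ fy T') * (fz T ⬝ᵥ fz T')) ^ 2 = 1 := by
    rw [mul_pow, mul_pow, h1, h2, h3]; norm_num
  rcases sq_eq_one_iff_of_side_cond h with h | h
  · left; rw [e, h, one_smul]
  · right; rw [e, h, neg_one_smul]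

theorem sy_symm (T : M5) : IsSymmetryAt T (sy T) := by
  refine ⟨fun y => act_act _ _ _ y, ?_, 1, one_pos, ?_⟩
  · apply inc_inj
    rw [inc_sy, rf_self (hfx T), rf_self (hfy T), rf_self (hfz T), ← inc_eq]
  · intro y hy hfix
    have h1 : dist (inc y) (inc T) < 1 := lt_of_le_of_lt (dist_inc_le y T) hy
    have h2 : ‖inc y - inc T‖ ^ 2 < 1 := by
      rw [← dist_eq_norm]
      have := dist_nonneg (x := inc y) (y := inc T)
      nlinarith
    rw [norm_sub_sq_real, norm_inc, norm_inc, real_inner_comm, inner_inc] at h2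
    rcases sy_fix_cases hfix with ⟨a, b, c⟩ | ⟨a, b, c⟩ | ⟨a, b, c⟩ | ⟨a, b, c⟩
    · rcases eq_or_neg_of_sq a b c with h | h
      · exact inc_inj h
      · exfalso
        rw [← inner_inc, h, inner_neg_right, real_inner_self_eq_norm_sq, norm_inc] at h2
        norm_num at h2
    · rw [b] at h2; norm_num at h2
    · rw [a] at h2; norm_num at h2
    · rw [a] at h2; norm_num at h2

theorem symmetric5 : IsSymmetric M5 := fun T => ⟨sy T, sy_symm T⟩

/-- in an antipodal set, the canonical symmetries fix all points -/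
theorem antipodal_sy {A : Set M5} (hA : IsAntipodal A) {T T' : M5} (h : T ∈ A) (h' : T' ∈ A) :
    sy T T' = T' := by
  obtain ⟨R, G⟩ := geo5
  obtain ⟨s, hs, hs'⟩ := hA T h T' h'
  rw [G.symm_unique (sy_symm T) hs, hs']

end Pool.Agent.H891R2.Sym
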